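import Pool.Agent.Helper40_Hinf.Hardy

/-!
Concentration of harmonic measures near the point `1`, and lower bounds on arcs.
-/

set_option autoImplicit false

open MeasureTheory Filter Topology AddCircle Metric
open scoped ENNReal Real

namespace Pool.Agent.Helper40_Hinf

lemma exists_dist_of_nhds {V : Set UnitAddCircle} (hV : V ∈ 𝓝 (0 : UnitAddCircle)) :
    ∃ δ : ℝ, 0 < δ ∧ ∀ t, t ∉ interior V → δ ≤ ‖ee t - 1‖ := by
  have hK : IsCompact (interior V)ᶜ := isOpen_interior.isClosed_compl.isCompact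
  rcases Set.eq_empty_or_nonempty (interior V)ᶜ with he | hne
  · refine ⟨1, one_pos, fun t ht => ?_⟩
    have : t ∈ (interior V)ᶜ := ht
    rw [he] at this
    exact this.elim
  · obtain ⟨t0, ht0, hmin⟩ := hK.exists_isMinOn hne
      ((continuous_ee.sub continuous_const).norm.continuousOn (s := (interior V)ᶜ)
        : ContinuousOn (fun t => ‖ee t - 1‖) _)
    refine ⟨‖ee t0 - 1‖, ?_, fun t ht => ?_⟩
    · rw [norm_pos_iff, sub_ne_zero]
      intro h
      rw [← ee_zero] at h
      have := ee_injective h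
      rw [this] at ht0
      exact ht0 (mem_interior_iff_mem_nhds.mpr hV)
    · exact hmin ht

lemma om_le_of_PK_le {z : ℂ} {s : Set UnitAddCircle} (hs : MeasurableSet s) {c : ℝ}
    (h : ∀ t ∈ s, PK z t ≤ c) : om z s ≤ ENNReal.ofReal c := by
  rw [om, withDensity_apply _ hs]
  calc ∫⁻ t in s, ENNReal.ofReal (PK z t) ≤ ∫⁻ t in s, ENNReal.ofReal c :=
        setLIntegral_mono' hs (fun t ht => ENNReal.ofReal_le_ofReal (h t ht))
    _ = ENNReal.ofReal c * (volume : Measure UnitAddCircle) s := by rw [setLIntegral_const]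
    _ ≤ ENNReal.ofReal c * 1 := by
        gcongr
        calc (volume : Measure UnitAddCircle) s ≤ (volume : Measure UnitAddCircle) Set.univ :=
              measure_mono (Set.subset_univ _)
          _ = 1 := UnitAddCircle.measure_univ
    _ = ENNReal.ofReal c := mul_one _

lemma le_om_of_le_PK {z : ℂ} {s : Set UnitAddCircle} (hs : MeasurableSet s) {c : ℝ}
    (h : ∀ t ∈ s, c ≤ PK z t) :
    ENNReal.ofReal c * (volume : Measure UnitAddCircle) s ≤ om z s := by
  rw [om, withDensity_apply _ hs]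
  calc ENNReal.ofReal c * (volume : Measure UnitAddCircle) s = ∫⁻ t in s, ENNReal.ofReal c := by
        rw [setLIntegral_const]
    _ ≤ ∫⁻ t in s, ENNReal.ofReal (PK z t) :=
        setLIntegral_mono' hs (fun t ht => ENNReal.ofReal_le_ofReal (h t ht))

lemma tendsto_om_compl {V : Set UnitAddCircle} (hV : V ∈ 𝓝 (0 : UnitAddCircle)) :
    Tendsto (fun z => om z Vᶜ) (𝓝[ball 0 1] (1 : ℂ)) (𝓝 0) := by
  obtain ⟨δ, hδ, hδV⟩ := exists_dist_of_nhds hV
  have h1 : Tendsto (fun z : ℂ => ENNReal.ofReal ((1 - ‖z‖ ^ 2) / (δ / 2) ^ 2))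
      (𝓝[ball 0 1] (1 : ℂ)) (𝓝 0) := by
    have h2 : Tendsto (fun z : ℂ => (1 - ‖z‖ ^ 2) / (δ / 2) ^ 2) (𝓝 (1 : ℂ)) (𝓝 0) := by
      have h3 : Continuous (fun z : ℂ => (1 - ‖z‖ ^ 2) / (δ / 2) ^ 2) := by fun_prop
      have h4 := h3.tendsto 1
      simpa using h4
    have h5 := ENNReal.tendsto_ofReal h2
    rw [ENNReal.ofReal_zero] at h5
    exact h5.mono_left nhdsWithin_le_nhds
  refine tendsto_of_tendsto_of_tendsto_of_le_of_le' tendsto_const_nhds h1
    (Eventually.of_forall fun _ => zero_le) ?_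
  have h6 : ∀ᶠ z in 𝓝[ball 0 1] (1 : ℂ), z ∈ ball (1:ℂ) (δ / 2) :=
    mem_nhdsWithin_of_mem_nhds (ball_mem_nhds _ (by positivity))
  filter_upwards [h6, self_mem_nhdsWithin] with z hz1 hz2
  have hz : ‖z‖ < 1 := by simpa using hz2
  have hz' : ‖z - 1‖ < δ / 2 := by simpa [dist_eq_norm] using hz1
  calc om z Vᶜ ≤ om z (interior V)ᶜ :=
        measure_mono (Set.compl_subset_compl.mpr interior_subset)
    _ ≤ _ := by
        refine om_le_of_PK_le isOpen_interior.measurableSet.compl (fun t ht => ?_)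
        refine PK_le hz (by positivity) ?_
        have h7 := hδV t ht
        have h8 : ‖ee t - 1‖ ≤ ‖ee t - z‖ + ‖z - 1‖ := by
          calc ‖ee t - 1‖ = ‖(ee t - z) + (z - 1)‖ := by congr 1; ring
            _ ≤ _ := norm_add_le _ _
        linarith

lemma norm_ee_sub_le (x y : ℝ) : ‖ee (x : UnitAddCircle) - ee (y : UnitAddCircle)‖
    ≤ 2 * π * |x - y| := by
  rw [ee_coe, ee_coe]
  have h1 : Complex.exp (2 * π * x * Complex.I) - Complex.exp (2 * π * y * Complex.I)
      = Complex.exp (2 * π * y * Complex.I) *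
        (Complex.exp (Complex.I * ((2 * π * (x - y) : ℝ) : ℂ)) - 1) := by
    rw [mul_sub, mul_one, ← Complex.exp_add]
    congr 2
    push_cast
    ring
  rw [h1, norm_mul]
  have h2 : ‖Complex.exp (2 * π * y * Complex.I)‖ = 1 := by
    have := Complex.norm_exp_ofReal_mul_I (2 * π * y)
    push_cast at this
    exact this
  rw [h2, one_mul]
  calc ‖Complex.exp (Complex.I * ((2 * π * (x - y) : ℝ) : ℂ)) - 1‖ ≤ ‖2 * π * (x - y)‖ :=
        Real.norm_exp_I_mul_ofReal_sub_one_le
    _ = 2 * π * |x - y| := by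
        rw [norm_mul, Real.norm_eq_abs, Real.norm_eq_abs, abs_of_pos (by positivity)]

/-- The point of the disc attached to the interval `[a, a + l]`. -/
noncomputable def pt (a l : ℝ) : ℂ := ((1 - l : ℝ) : ℂ) * ee (a : UnitAddCircle)

lemma norm_pt {a l : ℝ} (h1 : l ≤ 1) : ‖pt a l‖ = 1 - l := by
  rw [pt, norm_mul, norm_ee, mul_one, Complex.norm_real, Real.norm_of_nonneg (by linarith)]

/-- The open arc attached to an interval. -/
def arc (a l : ℝ) : Set UnitAddCircle := (fun x : ℝ => (x : UnitAddCircle)) '' Set.Ioo a (a + l)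

lemma isOpen_arc (a l : ℝ) : IsOpen (arc a l) :=
  QuotientAddGroup.isOpenMap_coe _ isOpen_Ioo

lemma le_volume_arc {a l : ℝ} (h1 : l ≤ 1) :
    ENNReal.ofReal l ≤ (volume : Measure UnitAddCircle) (arc a l) := by
  have h2 := (UnitAddCircle.measurePreserving_mk a).measure_preimage
    (isOpen_arc a l).measurableSet.nullMeasurableSet
  rw [← h2, Measure.restrict_apply]
  · calc ENNReal.ofReal l = volume (Set.Ioo a (a + l)) := by
          rw [Real.volume_Ioo]; congr 1; ring
      _ ≤ _ := by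
          refine measure_mono (fun x hx => ⟨⟨x, hx, rfl⟩, hx.1, ?_⟩)
          have := hx.2
          linarith
  · exact (isOpen_arc a l).measurableSet.preimage (UnitAddCircle.measurePreserving_mk a).measurable

lemma norm_ee_sub_pt {a l x : ℝ} (hl : 0 < l) (hx : x ∈ Set.Ioo a (a + l)) :
    ‖ee (x : UnitAddCircle) - pt a l‖ ≤ 8 * l := by
  have h1 : ee (x : UnitAddCircle) - pt a l
      = (ee (x : UnitAddCircle) - ee (a : UnitAddCircle)) + (l : ℂ) * ee (a : UnitAddCircle) := by
    rw [pt]; push_cast; ring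
  rw [h1]
  have h2 := norm_ee_sub_le x a
  have h3 : |x - a| ≤ l := by
    rw [abs_le]; constructor <;> linarith [hx.1, hx.2]
  have h4 : ‖(l : ℂ) * ee (a : UnitAddCircle)‖ = l := by
    rw [norm_mul, norm_ee, mul_one, Complex.norm_real, Real.norm_of_nonneg hl.le]
  have h5 : π ≤ 3.5 := by linarith [Real.pi_lt_d2]
  calc ‖(ee (x : UnitAddCircle) - ee (a : UnitAddCircle)) + (l : ℂ) * ee (a : UnitAddCircle)‖
      ≤ ‖ee (x : UnitAddCircle) - ee (a : UnitAddCircle)‖ + ‖(l : ℂ) * ee (a : UnitAddCircle)‖ :=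
        norm_add_le _ _
    _ ≤ 2 * π * |x - a| + l := by rw [h4]; linarith
    _ ≤ 2 * 3.5 * l + l := by
        have := mul_le_mul h5 h3 (abs_nonneg _) (by norm_num)
        linarith
    _ = 8 * l := by ring

lemma le_om_arc {a l : ℝ} (hl : 0 < l) (hl1 : l < 1) :
    ENNReal.ofReal (1 / 64) ≤ om (pt a l) (arc a l) := by
  have hn := norm_pt (a := a) hl1.le
  have hn1 : ‖pt a l‖ < 1 := by rw [hn]; linarith
  have h1 : ∀ t ∈ arc a l, 1 / (64 * l) ≤ PK (pt a l) t := by
    rintro t ⟨x, hx, rfl⟩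
    refine le_trans ?_ (le_PK hn1 (norm_ee_sub_pt hl hx))
    rw [hn, div_le_div_iff₀ (by positivity) (by positivity)]
    nlinarith
  have h2 := le_om_of_le_PK (isOpen_arc a l).measurableSet h1
  refine le_trans ?_ h2
  calc ENNReal.ofReal (1 / 64) = ENNReal.ofReal (1 / (64 * l)) * ENNReal.ofReal l := by
        rw [← ENNReal.ofReal_mul (by positivity)]
        congr 1
        field_simp
    _ ≤ _ := by
        gcongr
        exact le_volume_arc hl1.le

lemma harnack_pt {a l a' l' : ℝ} {N : ℝ} (hl : 0 < l) (hl1 : l < 1) (hl' : 0 < l') (hll : l' ≤ l)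
    (ha : a ≤ a') (ha' : a' ≤ a + l) (hN : l ≤ N * l') (t : UnitAddCircle) :
    PK (pt a' l') t ≤ 2 * (1 + 9 * N) ^ 2 * PK (pt a l) t := by
  have hn := norm_pt (a := a) hl1.le
  have hn' := norm_pt (a := a') (l := l') (by linarith)
  have hN0 : 0 ≤ N := by
    by_contra h
    push Not at h
    nlinarith
  refine PK_harnack (by rw [hn]; linarith) (by rw [hn']; linarith) ?_ ?_ (by norm_num)
    (by positivity) t
  · rw [hn, hn']; nlinarith
  · rw [hn']
    have h1 : pt a l - pt a' l' = ((1 - l : ℝ) : ℂ) * (ee (a : UnitAddCircle) - ee (a' : UnitAddCircle))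
        + ((l' - l : ℝ) : ℂ) * ee (a' : UnitAddCircle) := by
      rw [pt, pt]; push_cast; ring
    rw [h1]
    have h2 : ‖((1 - l : ℝ) : ℂ) * (ee (a : UnitAddCircle) - ee (a' : UnitAddCircle))‖ ≤ 7 * l := by
      rw [norm_mul, Complex.norm_real, Real.norm_of_nonneg (by linarith)]
      have h3 := norm_ee_sub_le a a'
      have h4 : |a - a'| ≤ l := by
        rw [abs_le]; constructor <;> linarith
      have h5 : π ≤ 3.5 := by linarith [Real.pi_lt_d2]
      have h6 := mul_le_mul h5 h4 (abs_nonneg _) (by norm_num)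
      have h7 := norm_nonneg (ee (a : UnitAddCircle) - ee (a' : UnitAddCircle))
      nlinarith
    have h3 : ‖((l' - l : ℝ) : ℂ) * ee (a' : UnitAddCircle)‖ ≤ l := by
      rw [norm_mul, norm_ee, mul_one, Complex.norm_real, Real.norm_eq_abs, abs_le]
      constructor <;> linarith
    have h4 := norm_add_le (((1 - l : ℝ) : ℂ) * (ee (a : UnitAddCircle) - ee (a' : UnitAddCircle)))
      (((l' - l : ℝ) : ℂ) * ee (a' : UnitAddCircle))
    nlinarith

end Pool.Agent.Helper40_Hinf
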