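import Pool.Agent.Helper40_Hinf.Minim

/-!
A maximal set of antisymmetry for `H^∞ + C` which is not the support of a finite measure.
-/

set_option autoImplicit false

open MeasureTheory Filter Topology AddCircle Metric
open scoped ENNReal Real

namespace Pool.Agent.Helper40_Hinf

/-- `L^∞` of the circle. -/
abbrev LI : Type := Lp ℂ ⊤ (volume : Measure UnitAddCircle)

/-- `H^∞ + C`. -/
def AA : Set LI :=
  {f | ∃ h c : LI,
            (∀ n : ℤ, n < 0 → fourierCoeff (h : UnitAddCircle → ℂ) n = 0) ∧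
            (∃ g : C(UnitAddCircle, ℂ), (c : UnitAddCircle → ℂ) =ᵐ[volume] ⇑g) ∧
            f = h + c}

/-- The maximal ideal space of `L^∞`. -/
def XX : Set (LI → ℂ) :=
  {φ | (∀ (a : ℂ) (f g : LI), φ (a • f + g) = a * φ f + φ g) ∧
               (∀ f g k : LI,
                  (k : UnitAddCircle → ℂ) =ᵐ[volume]
                    (fun t => (f : UnitAddCircle → ℂ) t * (g : UnitAddCircle → ℂ) t) →
                  φ k = φ f * φ g) ∧
               (∀ e : LI,
                  (e : UnitAddCircle → ℂ) =ᵐ[volume] (fun _ => (1:ℂ)) → φ e = 1)}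

lemma ae_bound (f : LI) : ∀ᵐ t ∂(volume : Measure UnitAddCircle), ‖(f : UnitAddCircle → ℂ) t‖ ≤ ‖f‖ := by
  have h1 := enorm_ae_le_eLpNormEssSup (f : UnitAddCircle → ℂ) (volume : Measure UnitAddCircle)
  filter_upwards [h1] with t ht
  rw [Lp.norm_def, eLpNorm_exponent_top]
  have h2 : eLpNormEssSup (f : UnitAddCircle → ℂ) (volume : Measure UnitAddCircle) ≠ ⊤ := by
    have := Lp.eLpNorm_ne_top f
    rwa [eLpNorm_exponent_top] at this
  have h3 := ENNReal.toReal_mono h2 ht
  simpa using h3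

/-- Class of a bounded measurable function. -/
lemma exists_class {f : UnitAddCircle → ℂ} (hf : AEStronglyMeasurable f volume) {B : ℝ}
    (hB : ∀ᵐ t ∂(volume : Measure UnitAddCircle), ‖f t‖ ≤ B) :
    ∃ F : LI, (F : UnitAddCircle → ℂ) =ᵐ[volume] f :=
  ⟨(memLp_top_of_bound hf B hB).toLp f, MemLp.coeFn_toLp _⟩

lemma exists_one : ∃ E : LI, (E : UnitAddCircle → ℂ) =ᵐ[volume] fun _ => (1:ℂ) :=
  exists_class aestronglyMeasurable_const (B := 1) (Eventually.of_forall fun _ => by simp)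

/-- A value at distance `≥ δ` from `f` is not attained by a character. -/
lemma char_ne {x : LI → ℂ} (hx : x ∈ XX) (f : LI) (w : ℂ) {δ : ℝ} (hδ : 0 < δ)
    (h : ∀ᵐ t ∂(volume : Measure UnitAddCircle), δ ≤ ‖(f : UnitAddCircle → ℂ) t - w‖) :
    x f ≠ w := by
  intro hxf
  obtain ⟨E, hE⟩ := exists_one
  obtain ⟨hlin, hmul, hone⟩ := hx
  have hm : AEStronglyMeasurable (fun t => ((f : UnitAddCircle → ℂ) t - w)⁻¹)
      (volume : Measure UnitAddCircle) := by
    exact ((Lp.stronglyMeasurable f).measurable.sub_const w).inv.aestronglyMeasurable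
  obtain ⟨G, hG⟩ := exists_class hm (B := δ⁻¹) (by
    filter_upwards [h] with t ht
    rw [norm_inv]
    exact inv_anti₀ hδ ht)
  have h1 : x ((-w) • E + f) = 0 := by
    rw [hlin, hone E hE, hxf]; ring
  have h2 : x E = x ((-w) • E + f) * x G := by
    refine hmul _ _ _ ?_
    filter_upwards [hE, hG, h, Lp.coeFn_add ((-w) • E) f, Lp.coeFn_smul (-w) E]
      with t h1 h2 h3 h4 h5
    rw [h1, h2, h4, Pi.add_apply, h5, Pi.smul_apply, h1, smul_eq_mul, mul_one]
    have h6 : (f : UnitAddCircle → ℂ) t - w ≠ 0 := by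
      intro h0
      rw [h0, norm_zero] at h3
      linarith
    have h7 : -w + (f : UnitAddCircle → ℂ) t = (f : UnitAddCircle → ℂ) t - w := by ring
    rw [h7, mul_inv_cancel₀ h6]
  rw [hone E hE, h1, zero_mul] at h2
  exact one_ne_zero h2

/-- A character is real on real functions. -/
lemma char_real {x : LI → ℂ} (hx : x ∈ XX) (f : LI)
    (h : ∀ᵐ t ∂(volume : Measure UnitAddCircle), ((f : UnitAddCircle → ℂ) t).im = 0) :
    (x f).im = 0 := by
  by_contra hne
  refine char_ne hx f (x f) (abs_pos.mpr hne) ?_ rfl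
  filter_upwards [h] with t ht
  have := Complex.abs_im_le_norm ((f : UnitAddCircle → ℂ) t - x f)
  rwa [Complex.sub_im, ht, zero_sub, abs_neg] at this

lemma exists_lim (𝓾 : Ultrafilter UnitAddCircle)
    (h : (𝓾 : Filter UnitAddCircle) ≤ ae (volume : Measure UnitAddCircle)) (f : LI) :
    ∃ c : ℂ, Tendsto (f : UnitAddCircle → ℂ) 𝓾 (𝓝 c) := by
  have h1 : ∀ᶠ t in (𝓾 : Filter UnitAddCircle),
      (f : UnitAddCircle → ℂ) t ∈ closedBall (0:ℂ) ‖f‖ := by
    filter_upwards [h (ae_bound f)] with t ht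
    rw [mem_closedBall, dist_zero_right]
    exact ht
  obtain ⟨c, _, hc⟩ := (isCompact_closedBall (0:ℂ) ‖f‖).ultrafilter_le_nhds
    (𝓾.map (f : UnitAddCircle → ℂ)) (by
      rw [Ultrafilter.coe_map, le_principal_iff, mem_map]
      exact h1)
  exact ⟨c, hc⟩

/-- The character attached to an ultrafilter. -/
lemma exists_char (𝓾 : Ultrafilter UnitAddCircle)
    (h : (𝓾 : Filter UnitAddCircle) ≤ ae (volume : Measure UnitAddCircle)) :
    ∃ x : XX, ∀ f : LI, Tendsto (f : UnitAddCircle → ℂ) 𝓾 (𝓝 (x.1 f)) := by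
  choose x hx using exists_lim 𝓾 h
  refine ⟨⟨x, ?_, ?_, ?_⟩, hx⟩
  · intro a f g
    have h1 : Tendsto (fun t => a * (f : UnitAddCircle → ℂ) t + (g : UnitAddCircle → ℂ) t) 𝓾
        (𝓝 (a * x f + x g)) := ((hx f).const_mul a).add (hx g)
    refine tendsto_nhds_unique ((hx (a • f + g)).congr' ?_) h1
    filter_upwards [h (Lp.coeFn_add (a • f) g), h (Lp.coeFn_smul a f)] with t h2 h3
    rw [h2, Pi.add_apply, h3, Pi.smul_apply, smul_eq_mul]
  · intro f g k hk
    have h1 : Tendsto (fun t => (f : UnitAddCircle → ℂ) t * (g : UnitAddCircle → ℂ) t) 𝓾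
        (𝓝 (x f * x g)) := (hx f).mul (hx g)
    exact tendsto_nhds_unique ((hx k).congr' (h hk)) h1
  · intro e he
    exact tendsto_nhds_unique ((hx e).congr' (h he)) tendsto_const_nhds

/-- Antisymmetric sets. -/
def Anti (S : Set ↥XX) : Prop :=
  ∀ f ∈ AA, (∀ x ∈ S, (x.1 f).im = 0) → ∀ x ∈ S, ∀ y ∈ S, x.1 f = y.1 f

lemma good_of_mem {f : LI} (hf : f ∈ AA) : GoodA (f : UnitAddCircle → ℂ) ‖f‖ := by
  obtain ⟨h, c, hh, ⟨g, hg⟩, rfl⟩ := hf
  refine ⟨Lp.stronglyMeasurable _, ae_bound _,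
    (h : UnitAddCircle → ℂ), g, ‖h‖, (Lp.stronglyMeasurable h).aestronglyMeasurable, ae_bound h,
    hh, ?_⟩
  filter_upwards [Lp.coeFn_add h c, hg] with t h1 h2
  rw [h1, Pi.add_apply, h2]

lemma uncountable_seq : ¬ Countable (ℕ → Bool) := by
  intro hc
  obtain ⟨e, he⟩ := exists_surjective_nat (ℕ → Bool)
  obtain ⟨n, hn⟩ := he (fun k => !(e k k))
  have := congrFun hn n
  simp at this

/-- The main construction. -/
theorem main : ∃ S : Set ↥XX, Anti S ∧ (∀ T : Set ↥XX, S ⊆ T → Anti T → T = S) ∧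
    ∀ [MeasurableSpace ↥XX] [BorelSpace ↥XX] (μ : Measure ↥XX), IsProbabilityMeasure μ →
      IsClosed S → μ Sᶜ = 0 → ¬ (∀ U : Set ↥XX, IsOpen U → (U ∩ S).Nonempty → μ U ≠ 0) := by
  obtain ⟨𝓕, h0, hH, hmin⟩ := exists_minimal
  have hae : 𝓕 ≤ ae (volume : Measure UnitAddCircle) := h0.trans inf_le_left
  have hn0 : 𝓕 ≤ 𝓝 (0 : UnitAddCircle) := h0.trans inf_le_right
  -- the antisymmetric set `Z`
  let Z : Set ↥XX := {x | ∃ 𝓾 : Ultrafilter UnitAddCircle, (𝓾 : Filter UnitAddCircle) ≤ 𝓕 ∧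
    ∀ f : LI, Tendsto (f : UnitAddCircle → ℂ) 𝓾 (𝓝 (x.1 f))}
  have hZ : Anti Z := by
    intro f hf hreal
    have hfr : Tendsto (fun t => ((f : UnitAddCircle → ℂ) t).im) 𝓕 (𝓝 0) := by
      rw [tendsto_iff_ultrafilter]
      intro 𝓾 h𝓾
      obtain ⟨x, hx⟩ := exists_char 𝓾 (h𝓾.trans hae)
      have h1 := hreal x ⟨𝓾, h𝓾, hx⟩
      have h2 := (Complex.continuous_im.tendsto _).comp (hx f)
      rw [h1] at h2
      exact h2
    obtain ⟨c, hc⟩ := tendsto_of_minimal hH hmin (good_of_mem hf) hfr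
    have h1 : ∀ x ∈ Z, x.1 f = c := by
      rintro x ⟨𝓾, h𝓾, hx⟩
      exact tendsto_nhds_unique (hx f) (hc.mono_left h𝓾)
    intro x hx y hy
    rw [h1 x hx, h1 y hy]
  -- points of `Z` at which a given set `WW s` is hit
  have hpt : ∀ s : ℕ → Bool, ∃ 𝓾 : Ultrafilter UnitAddCircle, (𝓾 : Filter UnitAddCircle) ≤ 𝓕 ∧
      WW s ∈ (𝓾 : Filter UnitAddCircle) := by
    intro s
    have := WW_frequent hH s
    refine ⟨Ultrafilter.of (𝓕 ⊓ 𝓟 (WW s)), (Ultrafilter.of_le _).trans inf_le_left, ?_⟩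
    exact (Ultrafilter.of_le _).trans inf_le_right (mem_principal_self _)
  -- maximal antisymmetric set
  obtain ⟨S, hZS, hS⟩ := zorn_subset_nonempty {S : Set ↥XX | Anti S} (by
    intro c hc hchain hne
    refine ⟨⋃₀ c, ?_, fun s hs => Set.subset_sUnion_of_mem hs⟩
    intro f hf hreal x hx y hy
    obtain ⟨s1, hs1, hx1⟩ := hx
    obtain ⟨s2, hs2, hy2⟩ := hy
    rcases hchain.total hs1 hs2 with h | h
    · exact hc hs2 f hf (fun z hz => hreal z ⟨s2, hs2, hz⟩) x (h hx1) y hy2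
    · exact hc hs1 f hf (fun z hz => hreal z ⟨s1, hs1, hz⟩) x hx1 y (h hy2)) Z hZ
  refine ⟨S, hS.1, fun T hST hT => Set.Subset.antisymm (hS.2 hT hST) hST, ?_⟩
  intro _ _ μ hμ hScl hSc hpos
  -- indicator classes
  have hindex : ∀ V : Set UnitAddCircle, IsOpen V → ∃ F : LI,
      (F : UnitAddCircle → ℂ) =ᵐ[volume] V.indicator (fun _ => (1:ℂ)) := by
    intro V hV
    refine exists_class (B := 1) ?_ ?_
    · exact (stronglyMeasurable_const.indicator hV.measurableSet).aestronglyMeasurable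
    · refine Eventually.of_forall fun t => ?_
      by_cases ht : t ∈ V
      · simp [Set.indicator_of_mem ht]
      · simp [Set.indicator_of_notMem ht]
  choose! ind hind using hindex
  let U : (ℕ → Bool) → Set ↥XX := fun s => {x | x.1 (ind (WW s)) ≠ 0}
  have hUopen : ∀ s, IsOpen (U s) := by
    intro s
    have h1 : Continuous fun x : ↥XX => x.1 (ind (WW s)) :=
      (continuous_apply _).comp continuous_subtype_val
    exact isOpen_ne.preimage h1
  have hUS : ∀ s, (U s ∩ S).Nonempty := by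
    intro s
    obtain ⟨𝓾, h1, h2⟩ := hpt s
    obtain ⟨x, hx⟩ := exists_char 𝓾 (h1.trans hae)
    refine ⟨x, ?_, hZS ⟨𝓾, h1, hx⟩⟩
    have h3 : Tendsto (ind (WW s) : UnitAddCircle → ℂ) 𝓾 (𝓝 1) := by
      refine tendsto_const_nhds.congr' ?_
      filter_upwards [(h1.trans hae) (hind (WW s) (isOpen_WW s)), h2] with t ht1 ht2
      rw [ht1, Set.indicator_of_mem ht2]
    have h4 := tendsto_nhds_unique (hx (ind (WW s))) h3
    change x.1 (ind (WW s)) ≠ 0
    rw [h4]
    exact one_ne_zero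
  have hdisj : Pairwise (Function.onFun Disjoint fun s => U s ∩ S) := by
    intro s t hst
    rw [Function.onFun, Set.disjoint_left]
    rintro x ⟨hxs, hxS⟩ ⟨hxt, _⟩
    obtain ⟨δ, hδ, hδW⟩ := WW_inter hst
    obtain ⟨hlin, hmul, hone⟩ := x.2
    -- values 1
    have hval : ∀ r, x.1 (ind (WW r)) ≠ 0 → x.1 (ind (WW r)) = 1 := by
      intro r hr
      have h1 : x.1 (ind (WW r)) = x.1 (ind (WW r)) * x.1 (ind (WW r)) := by
        refine hmul _ _ _ ?_
        filter_upwards [hind (WW r) (isOpen_WW r)] with p hp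
        rw [hp]
        by_cases hpr : p ∈ WW r
        · simp [Set.indicator_of_mem hpr]
        · simp [Set.indicator_of_notMem hpr]
      exact (mul_left_cancel₀ hr (by rw [mul_one]; exact h1)).symm
    have h1 : x.1 (ind (WW s ∩ WW t)) = 1 := by
      have h2 : x.1 (ind (WW s ∩ WW t)) = x.1 (ind (WW s)) * x.1 (ind (WW t)) := by
        refine hmul _ _ _ ?_
        filter_upwards [hind (WW s) (isOpen_WW s), hind (WW t) (isOpen_WW t),
          hind (WW s ∩ WW t) ((isOpen_WW s).inter (isOpen_WW t))] with p hp1 hp2 hp3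
        rw [hp1, hp2, hp3]
        by_cases hps : p ∈ WW s <;> by_cases hpt : p ∈ WW t <;>
          simp [Set.indicator, hps, hpt]
      rw [h2, hval s hxs, hval t hxt, one_mul]
    -- the continuous function
    let κ : C(UnitAddCircle, ℂ) := ⟨fun p => ((min 1 (‖p‖ / δ) : ℝ) : ℂ), by fun_prop⟩
    have hκb : ∀ p, ‖κ p‖ ≤ 1 := by
      intro p
      change ‖((min 1 (‖p‖ / δ) : ℝ) : ℂ)‖ ≤ 1
      rw [Complex.norm_real, Real.norm_of_nonneg (le_min zero_le_one (by positivity))]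
      exact min_le_left _ _
    obtain ⟨k, hk⟩ := exists_class (f := κ) κ.continuous.aestronglyMeasurable (B := 1)
      (Eventually.of_forall hκb)
    have hkA : k ∈ AA := by
      refine ⟨0, k, ?_, ⟨κ, hk⟩, by simp⟩
      intro n hn
      have h2 : fourierCoeff ((0 : LI) : UnitAddCircle → ℂ) = fourierCoeff (0 : UnitAddCircle → ℂ) := by
        refine fourierCoeff_congr_ae ?_
        rw [← volume_eq_haar]
        exact Lp.coeFn_zero _ _ _
      rw [h2]
      simp [fourierCoeff]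
    have hkreal : ∀ y : ↥XX, (y.1 k).im = 0 := by
      intro y
      refine char_real y.2 k ?_
      filter_upwards [hk] with p hp
      rw [hp]
      exact Complex.ofReal_im _
    obtain ⟨𝓾, hu1, hu2⟩ := hpt s
    obtain ⟨y, hy⟩ := exists_char 𝓾 (hu1.trans hae)
    have hxy := hS.1 k hkA (fun z _ => hkreal z) x hxS y (hZS ⟨𝓾, hu1, hy⟩)
    have hy0 : y.1 k = 0 := by
      have h3 : Tendsto (k : UnitAddCircle → ℂ) 𝓾 (𝓝 (κ 0)) := by
        refine ((κ.continuous.tendsto 0).mono_left (hu1.trans hn0)).congr' ?_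
        filter_upwards [(hu1.trans hae) hk] with p hp
        exact hp.symm
      rw [tendsto_nhds_unique (hy k) h3]
      change ((min 1 (‖(0 : UnitAddCircle)‖ / δ) : ℝ) : ℂ) = 0
      simp
    have h4 : x.1 (ind (WW s ∩ WW t)) = x.1 k * x.1 (ind (WW s ∩ WW t)) := by
      refine hmul _ _ _ ?_
      filter_upwards [hk, hind (WW s ∩ WW t) ((isOpen_WW s).inter (isOpen_WW t))] with p hp1 hp2
      rw [hp1, hp2]
      by_cases hp : p ∈ WW s ∩ WW t
      · have h5 := hδW p hp
        have h6 : κ p = 1 := by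
          change ((min 1 (‖p‖ / δ) : ℝ) : ℂ) = 1
          rw [min_eq_left]
          · simp
          · rwa [le_div_iff₀ hδ, one_mul]
        rw [h6, one_mul]
      · simp [Set.indicator_of_notMem hp]
    rw [hxy, hy0, zero_mul, h1] at h4
    exact one_ne_zero h4
  have hmeas : ∀ s, MeasurableSet (U s ∩ S) := fun s =>
    (hUopen s).measurableSet.inter hScl.measurableSet
  have hcount := Measure.countable_meas_pos_of_disjoint_iUnion (μ := μ) hmeas hdisj
  have hall : {s | 0 < μ (U s ∩ S)} = Set.univ := by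
    ext s
    simp only [Set.mem_ofPred_eq, Set.mem_univ, iff_true]
    have h1 := hpos (U s) (hUopen s) (hUS s)
    rw [pos_iff_ne_zero]
    intro h2
    apply h1
    refine le_antisymm ?_ zero_le
    calc μ (U s) ≤ μ ((U s ∩ S) ∪ Sᶜ) := by
          refine measure_mono fun x hx => ?_
          by_cases hxS : x ∈ S
          · left; exact ⟨hx, hxS⟩
          · right; exact hxS
      _ ≤ μ (U s ∩ S) + μ Sᶜ := measure_union_le _ _
      _ = 0 := by rw [h2, hSc, add_zero]
  rw [hall, Set.countable_univ_iff] at hcount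
  exact uncountable_seq hcount

end Pool.Agent.Helper40_Hinf
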