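import Pool.Agent.Helper40_Hinf.Kernel

/-!
Multiplicativity of Poisson averages on bounded functions with vanishing negative Fourier
coefficients.
-/

set_option autoImplicit false

open MeasureTheory Filter Topology AddCircle Metric
open scoped ENNReal Real

namespace Pool.Agent.Helper40_Hinf

lemma volume_eq_haar : (volume : Measure UnitAddCircle) = haarAddCircle := by
  rw [AddCircle.volume_eq_smul_haarAddCircle, ENNReal.ofReal_one, one_smul]

lemma hasSum_pair {h g : UnitAddCircle → ℂ} (hh : MemLp h 2 haarAddCircle)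
    (hg : MemLp g 2 haarAddCircle) :
    HasSum (fun n : ℤ => fourierCoeff h n * ∫ t, g t * fourier n t ∂haarAddCircle)
      (∫ t, g t * h t ∂haarAddCircle) := by
  have hg' : MemLp (fun t => starRingEnd ℂ (g t)) 2 haarAddCircle := by
    have := hg.star
    exact this
  set H : Lp ℂ 2 (haarAddCircle : Measure UnitAddCircle) := hh.toLp h with hH
  set G : Lp ℂ 2 (haarAddCircle : Measure UnitAddCircle) := hg'.toLp _ with hG
  have h1 := (hasSum_fourier_series_L2 H).mapL (innerSL ℂ G)
  have key : ∀ (u : UnitAddCircle → ℂ) (U : Lp ℂ 2 (haarAddCircle : Measure UnitAddCircle)),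
      U =ᵐ[haarAddCircle] u → innerSL ℂ G U = ∫ t, g t * u t ∂haarAddCircle := by
    intro u U hU
    rw [innerSL_apply_apply, L2.inner_def]
    refine integral_congr_ae ?_
    filter_upwards [hU, hg'.coeFn_toLp] with t h1 h2
    rw [h1, h2, RCLike.inner_apply, RingHomCompTriple.comp_apply, RingHom.id_apply, mul_comm]
  have h2 : innerSL ℂ G H = ∫ t, g t * h t ∂haarAddCircle := key h H hh.coeFn_toLp
  rw [h2] at h1
  refine h1.congr_fun (fun n => ?_)
  rw [map_smul, key _ _ (coeFn_fourierLp 2 n), fourierCoeff_congr_ae hh.coeFn_toLp, smul_eq_mul]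

lemma PK_bound {z : ℂ} (hz : ‖z‖ < 1) (t : UnitAddCircle) :
    ‖(PK z t : ℂ)‖ ≤ (1 - ‖z‖ ^ 2) / (1 - ‖z‖) ^ 2 := by
  rw [Complex.norm_real, Real.norm_of_nonneg (PK_nonneg hz t)]
  refine PK_le hz (by linarith) ?_
  have := norm_sub_norm_le (ee t) z
  rwa [norm_ee] at this

lemma memLp_PK_mul {z : ℂ} (hz : ‖z‖ < 1) {f : UnitAddCircle → ℂ} {B : ℝ}
    (hf : AEStronglyMeasurable f haarAddCircle) (hB : ∀ᵐ t ∂haarAddCircle, ‖f t‖ ≤ B) :
    MemLp (fun t => (PK z t : ℂ) * f t) 2 haarAddCircle := by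
  refine MemLp.of_bound ?_ ((1 - ‖z‖ ^ 2) / (1 - ‖z‖) ^ 2 * B) ?_
  · refine AEStronglyMeasurable.mul ?_ hf
    exact (Complex.continuous_ofReal.comp (continuous_PK hz)).aestronglyMeasurable
  · filter_upwards [hB] with t ht
    rw [norm_mul]
    have h1 := PK_bound hz t
    have h2 := norm_nonneg (PK z t : ℂ)
    gcongr
    linarith

lemma fourier_norm_one (n : ℤ) (t : UnitAddCircle) : ‖fourier n t‖ = 1 := by
  rw [fourier_apply]
  exact Circle.norm_coe _

lemma int_PK_pow {z : ℂ} (hz : ‖z‖ < 1) (n : ℕ) :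
    ∫ t, (PK z t : ℂ) * ee t ^ n ∂(haarAddCircle : Measure UnitAddCircle) = z ^ n := by
  rw [← volume_eq_haar]
  exact integral_PK_pow hz n

theorem mult_haar {h : UnitAddCircle → ℂ} {B : ℝ} (hm : AEStronglyMeasurable h haarAddCircle)
    (hB : ∀ᵐ t ∂haarAddCircle, ‖h t‖ ≤ B) (hneg : ∀ n : ℤ, n < 0 → fourierCoeff h n = 0)
    {z : ℂ} (hz : ‖z‖ < 1) :
    ∫ t, (PK z t : ℂ) * (h t * h t) ∂haarAddCircle
      = (∫ t, (PK z t : ℂ) * h t ∂haarAddCircle) * ∫ t, (PK z t : ℂ) * h t ∂haarAddCircle := by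
  have hh : MemLp h 2 haarAddCircle := MemLp.of_bound hm B hB
  set I := ∫ t, (PK z t : ℂ) * h t ∂haarAddCircle with hI
  -- step A
  have hA : HasSum (fun n : ℤ => fourierCoeff h n * z ^ n.toNat) I := by
    have h1 := hasSum_pair hh (memLp_PK_mul hz (f := fun _ => 1) (B := 1)
      aestronglyMeasurable_const (Eventually.of_forall fun _ => by simp))
    simp only [mul_one] at h1
    refine h1.congr_fun (fun n => ?_)
    rcases lt_or_ge n 0 with hn | hn
    · rw [hneg n hn]; ring
    · obtain ⟨m, rfl⟩ := Int.eq_ofNat_of_zero_le hn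
      simp only [fourier_eq_ee_pow]
      rw [int_PK_pow hz m]
      simp
  -- step B
  have hBk : ∀ k : ℕ, ∫ t, ((PK z t : ℂ) * ee t ^ k) * h t ∂haarAddCircle = z ^ k * I := by
    intro k
    have h1 := hasSum_pair hh (memLp_PK_mul hz (f := fun t => ee t ^ k) (B := 1)
      (continuous_ee.pow k).aestronglyMeasurable (Eventually.of_forall fun t => by simp))
    have h2 : HasSum (fun n : ℤ => z ^ k * (fourierCoeff h n * z ^ n.toNat)) (z ^ k * I) :=
      hA.mul_left _
    refine h1.unique (h2.congr_fun (fun n => ?_))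
    rcases lt_or_ge n 0 with hn | hn
    · rw [hneg n hn]; ring
    · obtain ⟨m, rfl⟩ := Int.eq_ofNat_of_zero_le hn
      simp only [fourier_eq_ee_pow]
      have : ∀ t : UnitAddCircle, (PK z t : ℂ) * ee t ^ k * ee t ^ m
          = (PK z t : ℂ) * ee t ^ (k + m) := by
        intro t; ring
      simp only [this]
      rw [int_PK_pow hz (k + m)]
      simp only [Int.toNat_natCast]
      ring
  -- step C
  have h1 := hasSum_pair hh (memLp_PK_mul hz hm hB)
  have h2 : HasSum (fun n : ℤ => (fourierCoeff h n * z ^ n.toNat) * I) (I * I) :=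
    hA.mul_right _
  have h3 : ∫ t, (PK z t : ℂ) * h t * h t ∂haarAddCircle = I * I := by
    refine h1.unique (h2.congr_fun (fun n => ?_))
    rcases lt_or_ge n 0 with hn | hn
    · rw [hneg n hn]; ring
    · obtain ⟨m, rfl⟩ := Int.eq_ofNat_of_zero_le hn
      simp only [fourier_eq_ee_pow]
      have : ∀ t : UnitAddCircle, (PK z t : ℂ) * h t * ee t ^ m
          = (PK z t : ℂ) * ee t ^ m * h t := by
        intro t; ring
      simp only [this]
      rw [hBk m]
      simp only [Int.toNat_natCast]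
      ring
  rw [← h3]
  congr 1
  ext t
  ring

/-- Multiplicativity of harmonic measure on bounded analytic functions. -/
theorem mult_om {h : UnitAddCircle → ℂ} {B : ℝ} (hm : AEStronglyMeasurable h volume)
    (hB : ∀ᵐ t ∂(volume : Measure UnitAddCircle), ‖h t‖ ≤ B)
    (hneg : ∀ n : ℤ, n < 0 → fourierCoeff h n = 0)
    {z : ℂ} (hz : ‖z‖ < 1) :
    ∫ t, h t * h t ∂(om z) = (∫ t, h t ∂(om z)) * ∫ t, h t ∂(om z) := by
  rw [integral_om hz, integral_om hz]
  rw [volume_eq_haar] at *
  exact mult_haar hm hB hneg hz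

end Pool.Agent.Helper40_Hinf
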