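import Mathlib

/-!
Poisson kernels on the additive circle: positivity, total mass, moments, Harnack inequality.
-/

set_option autoImplicit false

open MeasureTheory Filter Topology AddCircle Metric
open scoped ENNReal Real

namespace Pool.Agent.Helper40_Hinf

/-- The additive circle as a subset of the unit circle of the complex plane. -/
noncomputable def ee (t : UnitAddCircle) : ℂ := (AddCircle.toCircle t : ℂ)

lemma continuous_ee : Continuous ee :=
  continuous_subtype_val.comp AddCircle.continuous_toCircle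

@[simp] lemma norm_ee (t : UnitAddCircle) : ‖ee t‖ = 1 := Circle.norm_coe _

lemma ee_coe (x : ℝ) : ee (x : UnitAddCircle) = Complex.exp (2 * π * x * Complex.I) := by
  rw [ee, AddCircle.toCircle_apply_mk, Circle.coe_exp]
  push_cast
  congr 1
  ring

lemma ee_zero : ee 0 = 1 := by simp [ee]

lemma ee_injective : Function.Injective ee := by
  intro a b h
  exact AddCircle.injective_toCircle one_ne_zero (Subtype.ext h)

lemma ee_ne {z : ℂ} (hz : ‖z‖ < 1) (t : UnitAddCircle) : ee t - z ≠ 0 := by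
  intro h
  have := sub_eq_zero.mp h
  rw [← this, norm_ee] at hz
  exact lt_irrefl _ hz

/-- The Poisson kernel. -/
noncomputable def PK (z : ℂ) (t : UnitAddCircle) : ℝ := (1 - ‖z‖ ^ 2) / ‖ee t - z‖ ^ 2

lemma continuous_PK {z : ℂ} (hz : ‖z‖ < 1) : Continuous (PK z) := by
  unfold PK
  refine Continuous.div continuous_const ((continuous_ee.sub continuous_const).norm.pow 2) ?_
  intro t
  have := ee_ne hz t
  positivity

lemma PK_nonneg {z : ℂ} (hz : ‖z‖ < 1) (t : UnitAddCircle) : 0 ≤ PK z t := by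
  unfold PK
  have h1 : ‖z‖ ^ 2 ≤ 1 := by
    have := norm_nonneg z
    nlinarith
  have h2 : (0:ℝ) ≤ 1 - ‖z‖ ^ 2 := by linarith
  positivity

lemma PK_le {z : ℂ} (hz : ‖z‖ < 1) {t : UnitAddCircle} {δ : ℝ} (hδ : 0 < δ)
    (h : δ ≤ ‖ee t - z‖) : PK z t ≤ (1 - ‖z‖ ^ 2) / δ ^ 2 := by
  unfold PK
  have h1 : ‖z‖ ^ 2 ≤ 1 := by
    have := norm_nonneg z
    nlinarith
  have h2 : (0:ℝ) ≤ 1 - ‖z‖ ^ 2 := by linarith
  gcongr

lemma le_PK {z : ℂ} (hz : ‖z‖ < 1) {t : UnitAddCircle} {δ : ℝ}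
    (h : ‖ee t - z‖ ≤ δ) : (1 - ‖z‖ ^ 2) / δ ^ 2 ≤ PK z t := by
  unfold PK
  have h1 : ‖z‖ ^ 2 ≤ 1 := by
    have := norm_nonneg z
    nlinarith
  have h2 : (0:ℝ) ≤ 1 - ‖z‖ ^ 2 := by linarith
  have h3 := ee_ne hz t
  have h4 : 0 < ‖ee t - z‖ := norm_pos_iff.mpr h3
  gcongr

/-- Harnack inequality. -/
lemma PK_harnack {z w : ℂ} (hz : ‖z‖ < 1) (hw : ‖w‖ < 1) {C D : ℝ}
    (h1 : 1 - ‖w‖ ^ 2 ≤ C * (1 - ‖z‖ ^ 2)) (h2 : ‖z - w‖ ≤ D * (1 - ‖w‖)) (hC : 0 ≤ C)
    (hD : 0 ≤ D)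
    (t : UnitAddCircle) : PK w t ≤ C * (1 + D) ^ 2 * PK z t := by
  have h3 : 0 < ‖ee t - z‖ := norm_pos_iff.mpr (ee_ne hz t)
  have h4 : 0 < ‖ee t - w‖ := norm_pos_iff.mpr (ee_ne hw t)
  have h5 : 1 - ‖w‖ ≤ ‖ee t - w‖ := by
    have := norm_sub_norm_le (ee t) w
    rwa [norm_ee] at this
  have h6 : ‖ee t - z‖ ≤ (1 + D) * ‖ee t - w‖ := by
    calc ‖ee t - z‖ = ‖(ee t - w) - (z - w)‖ := by congr 1; ring
      _ ≤ ‖ee t - w‖ + ‖z - w‖ := norm_sub_le _ _
      _ ≤ ‖ee t - w‖ + D * (1 - ‖w‖) := by linarith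
      _ ≤ ‖ee t - w‖ + D * ‖ee t - w‖ := by
          have := mul_le_mul_of_nonneg_left h5 hD
          linarith
      _ = (1 + D) * ‖ee t - w‖ := by ring
  unfold PK
  rw [div_le_iff₀ (by positivity)]
  have h7 : ‖ee t - z‖ ^ 2 ≤ ((1 + D) * ‖ee t - w‖) ^ 2 := by
    gcongr
  have h8 : (0:ℝ) ≤ 1 - ‖z‖ ^ 2 := by
    have := norm_nonneg z
    nlinarith
  calc 1 - ‖w‖ ^ 2 ≤ C * (1 - ‖z‖ ^ 2) := h1
    _ = C * (1 - ‖z‖ ^ 2) / ‖ee t - z‖ ^ 2 * ‖ee t - z‖ ^ 2 := by field_simp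
    _ ≤ C * (1 - ‖z‖ ^ 2) / ‖ee t - z‖ ^ 2 * ((1 + D) * ‖ee t - w‖) ^ 2 := by
        gcongr
    _ = C * (1 + D) ^ 2 * ((1 - ‖z‖ ^ 2) / ‖ee t - z‖ ^ 2) * ‖ee t - w‖ ^ 2 := by ring

lemma fourier_eq_ee_pow (n : ℕ) (t : UnitAddCircle) : fourier (n : ℤ) t = ee t ^ n := by
  rw [fourier_apply, ee]
  rw [AddCircle.toCircle_zsmul]
  simp

/-- Poisson integral formula for monomials. -/
lemma integral_PK_pow {z : ℂ} (hz : ‖z‖ < 1) (n : ℕ) :
    ∫ t : UnitAddCircle, (PK z t : ℂ) * ee t ^ n = z ^ n := by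
  have h1 : DiffContOnCl ℂ (fun w : ℂ => w ^ n) (ball 0 1) :=
    (differentiable_pow n).diffContOnCl
  have h2 := h1.circleAverage_poissonKernel_smul' (w := z) (by simpa using hz)
  rw [Real.circleAverage_def] at h2
  have h3 := UnitAddCircle.intervalIntegral_preimage 0
    (fun t : UnitAddCircle => (PK z t : ℂ) * ee t ^ n)
  rw [← h3]
  have h4 := intervalIntegral.integral_comp_mul_left (a := (0:ℝ)) (b := 1)
    (fun θ : ℝ => ((‖circleMap 0 1 θ - 0‖ ^ 2 - ‖z - 0‖ ^ 2) /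
      ‖(circleMap 0 1 θ - 0) - (z - 0)‖ ^ 2) • (circleMap 0 1 θ) ^ n)
    (c := 2 * π) (by positivity)
  rw [mul_zero, mul_one] at h4
  rw [← h2, ← h4, zero_add]
  refine intervalIntegral.integral_congr ?_
  intro x _
  simp only [sub_zero]
  have h5 : circleMap 0 1 (2 * π * x) = ee (x : UnitAddCircle) := by
    rw [ee_coe, circleMap]
    simp
  rw [h5, norm_ee, PK, Complex.real_smul]
  norm_num

lemma integral_PK {z : ℂ} (hz : ‖z‖ < 1) : ∫ t : UnitAddCircle, PK z t = 1 := by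
  have := integral_PK_pow hz 0
  simp only [pow_zero, mul_one] at this
  rw [integral_complex_ofReal] at this
  exact_mod_cast this

/-- Harmonic measure. -/
noncomputable def om (z : ℂ) : Measure UnitAddCircle :=
  (volume : Measure UnitAddCircle).withDensity (fun t => ENNReal.ofReal (PK z t))

lemma om_ac (z : ℂ) : om z ≪ volume := withDensity_absolutelyContinuous _ _

lemma om_univ {z : ℂ} (hz : ‖z‖ < 1) : om z Set.univ = 1 := by
  rw [om, withDensity_apply _ MeasurableSet.univ, Measure.restrict_univ,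
    ← ofReal_integral_eq_lintegral_ofReal, integral_PK hz, ENNReal.ofReal_one]
  · exact (continuous_PK hz).integrable_of_hasCompactSupport (HasCompactSupport.of_compactSpace _)
  · exact Filter.Eventually.of_forall (PK_nonneg hz)

lemma isProb_om {z : ℂ} (hz : ‖z‖ < 1) : IsProbabilityMeasure (om z) := ⟨om_univ hz⟩

lemma integral_om {z : ℂ} (hz : ‖z‖ < 1) (f : UnitAddCircle → ℂ) :
    ∫ t, f t ∂(om z) = ∫ t, (PK z t : ℂ) * f t := by
  rw [om, integral_withDensity_eq_integral_toReal_smul₀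
    ((continuous_PK hz).measurable.ennreal_ofReal.aemeasurable)
    (Filter.Eventually.of_forall (fun _ => ENNReal.ofReal_lt_top))]
  refine integral_congr_ae (Filter.Eventually.of_forall fun t => ?_)
  simp only
  rw [ENNReal.toReal_ofReal (PK_nonneg hz t), Complex.real_smul]

lemma om_le {z w : ℂ} {C : ℝ} (h : ∀ t, PK w t ≤ C * PK z t) (hC : 0 ≤ C) (V : Set UnitAddCircle) :
    om w V ≤ ENNReal.ofReal C * om z V := by
  have h1 : om w ≤ ENNReal.ofReal C • om z := by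
    rw [om, om, ← withDensity_smul' _ _ ENNReal.ofReal_ne_top]
    refine withDensity_mono (Filter.Eventually.of_forall fun t => ?_)
    simp only [Pi.smul_apply, smul_eq_mul]
    rw [← ENNReal.ofReal_mul hC]
    exact ENNReal.ofReal_le_ofReal (h t)
  have := h1 V
  simpa using this

end Pool.Agent.Helper40_Hinf
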