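import Pool.Agent.Helper40_Hinf.Var2

/-!
A minimal filter on the circle which carries limits of harmonic measures for all finite label
sets; along it every asymptotically real element of `H^∞ + C` converges.
-/

set_option autoImplicit false

open MeasureTheory Filter Topology AddCircle Metric
open scoped ENNReal Real

namespace Pool.Agent.Helper40_Hinf

/-- The filter on parameters expressing that harmonic measures concentrate on members of `𝓕`. -/
noncomputable def GG (𝓕 : Filter UnitAddCircle) : Filter (ℕ × ℝ × ℝ) :=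
  ⨅ V : {V // V ∈ 𝓕}, comap (fun p => om (zp p) (V : Set UnitAddCircle)ᶜ) (𝓝 0)

lemma le_GG_iff {𝓕 : Filter UnitAddCircle} {𝒰 : Filter (ℕ × ℝ × ℝ)} :
    𝒰 ≤ GG 𝓕 ↔ ∀ V ∈ 𝓕, Tendsto (fun p => om (zp p) Vᶜ) 𝒰 (𝓝 0) := by
  unfold GG
  rw [le_iInf_iff]
  constructor
  · intro h V hV
    exact tendsto_iff_comap.mpr (h ⟨V, hV⟩)
  · intro h V
    exact tendsto_iff_comap.mp (h V.1 V.2)

lemma GG_mono {𝓕 𝓕' : Filter UnitAddCircle} (h : 𝓕 ≤ 𝓕') : GG 𝓕 ≤ GG 𝓕' := by
  rw [le_GG_iff]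
  intro V hV
  exact (le_GG_iff.mp (le_refl (GG 𝓕))) V (h hV)

/-- For every finite label set there are limits of harmonic measures carried by `𝓕`. -/
def HH (𝓕 : Filter UnitAddCircle) : Prop := ∀ F : Finset (ℕ → Bool), (FF F ⊓ GG 𝓕).NeBot

/-- The starting filter. -/
noncomputable def F0 : Filter UnitAddCircle := ae (volume : Measure UnitAddCircle) ⊓ 𝓝 0

lemma HH_F0 : HH F0 := by
  intro F
  have h1 : FF F ≤ GG F0 := by
    rw [le_GG_iff]
    intro V hV
    obtain ⟨N, hN, U, hU, rfl⟩ := mem_inf_iff.mp hV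
    have h2 := (tendsto_om_compl hU).comp (tendsto_zp F)
    refine h2.congr fun p => ?_
    simp only [Function.comp_apply]
    rw [Set.compl_inter]
    have hN0 : om (zp p) Nᶜ = 0 := om_ac _ (mem_ae_iff.mp hN)
    refine le_antisymm (measure_mono Set.subset_union_right) ?_
    calc om (zp p) (Nᶜ ∪ Uᶜ) ≤ om (zp p) Nᶜ + om (zp p) Uᶜ := measure_union_le _ _
      _ = om (zp p) Uᶜ := by rw [hN0, zero_add]
  rw [inf_eq_left.mpr h1]
  infer_instance

lemma HH_chain {c : Set (Filter UnitAddCircle)} (hc : ∀ 𝓕 ∈ c, HH 𝓕)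
    (hchain : IsChain (fun x y => x ≤ y) c) (hne : c.Nonempty) :
    HH (⨅ i : c, (i : Filter UnitAddCircle)) := by
  intro F
  have : Nonempty c := hne.to_subtype
  have hdir : Directed (fun x1 x2 => x1 ≥ x2) (fun i : c => (i : Filter UnitAddCircle)) := by
    intro i j
    rcases hchain.total i.2 j.2 with h | h
    · exact ⟨i, le_refl _, h⟩
    · exact ⟨j, h, le_refl _⟩
  have h1 : (⨅ i : c, FF F ⊓ GG (i : Filter UnitAddCircle)).NeBot := by
    refine iInf_neBot_of_directed' ?_ (fun i => hc i.1 i.2 F)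
    intro i j
    obtain ⟨k, hk1, hk2⟩ := hdir i j
    exact ⟨k, inf_le_inf_left _ (GG_mono hk1), inf_le_inf_left _ (GG_mono hk2)⟩
  refine h1.mono (le_inf ?_ ?_)
  · obtain ⟨i⟩ := ‹Nonempty c›
    exact (iInf_le _ i).trans inf_le_left
  · rw [le_GG_iff]
    intro V hV
    obtain ⟨i, hi⟩ := (mem_iInf_of_directed hdir V).mp hV
    have h2 : (⨅ i : c, FF F ⊓ GG (i : Filter UnitAddCircle)) ≤ GG (i : Filter UnitAddCircle) :=
      (iInf_le _ i).trans inf_le_right
    exact (le_GG_iff.mp h2) V hi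

/-- Existence of a minimal filter. -/
lemma exists_minimal : ∃ 𝓕 : Filter UnitAddCircle, 𝓕 ≤ F0 ∧ HH 𝓕 ∧
    ∀ 𝓕' : Filter UnitAddCircle, 𝓕' ≤ 𝓕 → HH 𝓕' → 𝓕 ≤ 𝓕' := by
  obtain ⟨m, hm1, hm2⟩ := zorn_le_nonempty₀ (α := (Filter UnitAddCircle)ᵒᵈ)
    {𝓕 | HH (OrderDual.ofDual 𝓕)} (by
      intro c hc hchain y hy
      have h1 : IsChain (fun x y : Filter UnitAddCircle => x ≤ y)
          (OrderDual.toDual ⁻¹' c : Set (Filter UnitAddCircle)) := by
        intro a ha b hb hab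
        have := hchain ha hb (by
          intro h
          exact hab (OrderDual.toDual_inj.mp h))
        exact this.symm
      have h2 := HH_chain (c := (OrderDual.toDual ⁻¹' c : Set (Filter UnitAddCircle)))
        (fun 𝓕 h => hc h) h1 ⟨OrderDual.ofDual y, hy⟩
      refine ⟨OrderDual.toDual _, h2, fun z hz => ?_⟩
      exact iInf_le (fun i : (OrderDual.toDual ⁻¹' c : Set (Filter UnitAddCircle)) =>
        (i : Filter UnitAddCircle)) ⟨OrderDual.ofDual z, hz⟩)
    (OrderDual.toDual F0) HH_F0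
  refine ⟨OrderDual.ofDual m, hm1, hm2.1, fun 𝓕' h1 h2 => ?_⟩
  exact hm2.2 (y := OrderDual.toDual 𝓕') h2 h1

section key

variable {𝓕 : Filter UnitAddCircle} {f : UnitAddCircle → ℂ} {B : ℝ}

lemma tendsto_bad (hfr : Tendsto (fun t => (f t).im) 𝓕 (𝓝 0)) {𝒰 : Filter (ℕ × ℝ × ℝ)}
    (h𝒰 : 𝒰 ≤ GG 𝓕) {δ : ℝ} (hδ : 0 < δ) :
    Tendsto (fun p => om (zp p) {t | δ ≤ |(f t).im|}) 𝒰 (𝓝 0) := by
  have h1 : {t : UnitAddCircle | |(f t).im| < δ} ∈ 𝓕 := by
    have := (Metric.tendsto_nhds.mp hfr) δ hδ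
    filter_upwards [this] with t ht
    rwa [Real.dist_eq, sub_zero] at ht
  have h2 := (le_GG_iff.mp h𝒰) _ h1
  have h3 : {t : UnitAddCircle | |(f t).im| < δ}ᶜ = {t | δ ≤ |(f t).im|} := by
    ext t; simp
  rwa [h3] at h2

lemma variance_ultra (hf : GoodA f B) (hfr : Tendsto (fun t => (f t).im) 𝓕 (𝓝 0))
    {F : Finset (ℕ → Bool)} {𝒰 : Filter (ℕ × ℝ × ℝ)} [𝒰.NeBot] (h𝒰 : 𝒰 ≤ FF F ⊓ GG 𝓕) {c : ℂ}
    (hc : Tendsto (fun p => ∫ t, f t ∂(om (zp p))) 𝒰 (𝓝 c)) :
    Tendsto (fun p => ∫ t, ‖f t - c‖ ^ 2 ∂(om (zp p))) 𝒰 (𝓝 0) :=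
  tendsto_variance (zz := zp) ((tendsto_zp F).mono_left (h𝒰.trans inf_le_left)) hf hc
    (fun _ hδ => tendsto_bad hfr (h𝒰.trans inf_le_right) hδ)

/-- The cluster values for the label set `F`. -/
def KK (𝓕 : Filter UnitAddCircle) (f : UnitAddCircle → ℂ) (F : Finset (ℕ → Bool)) : Set ℂ :=
  {c | MapClusterPt c (FF F ⊓ GG 𝓕) (fun p => ∫ t, f t ∂(om (zp p)))}

lemma KK_closed (F : Finset (ℕ → Bool)) : IsClosed (KK 𝓕 f F) := isClosed_setOfPred_clusterPt

lemma node_of_le {F : Finset (ℕ → Bool)} {𝒰 : Filter (ℕ × ℝ × ℝ)} (h𝒰 : 𝒰 ≤ FF F) :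
    ∀ᶠ p in 𝒰, Node p.1 F p.2.1 p.2.2 := (FF_node F).filter_mono h𝒰

lemma KK_subset (hf : GoodA f B) (F : Finset (ℕ → Bool)) : KK 𝓕 f F ⊆ closedBall 0 B := by
  intro c hc
  obtain ⟨u, hu1, hu2⟩ := mapClusterPt_iff_ultrafilter.mp hc
  refine isClosed_closedBall.mem_of_tendsto hu2 ?_
  filter_upwards [node_of_le (hu1.trans inf_le_left)] with p hp
  rw [mem_closedBall, dist_zero_right]
  exact norm_integral_le_B (norm_zp_lt hp) hf.bdd

lemma KK_nonempty (hf : GoodA f B) (hH : HH 𝓕) (F : Finset (ℕ → Bool)) :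
    (KK 𝓕 f F).Nonempty := by
  have := hH F
  obtain ⟨c, _, hc⟩ := (isCompact_closedBall (0:ℂ) B).exists_mapClusterPt
    (f := FF F ⊓ GG 𝓕) (u := fun p => ∫ t, f t ∂(om (zp p))) (by
      rw [le_principal_iff, mem_map]
      filter_upwards [node_of_le (F := F) inf_le_left] with p hp
      rw [Set.mem_preimage, mem_closedBall, dist_zero_right]
      exact norm_integral_le_B (norm_zp_lt hp) hf.bdd)
  exact ⟨c, hc⟩

lemma KK_anti (hf : GoodA f B) (hfr : Tendsto (fun t => (f t).im) 𝓕 (𝓝 0))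
    {F G : Finset (ℕ → Bool)} (hG : G ⊆ F) : KK 𝓕 f F ⊆ KK 𝓕 f G := by
  intro c hc
  obtain ⟨u, hu1, hu2⟩ := mapClusterPt_iff_ultrafilter.mp hc
  have hvar := variance_ultra hf hfr hu1 hu2
  set C : ℝ := 2 * (1 + 9 * (F.card.factorial : ℝ)) ^ 2 with hC
  have hC0 : 0 ≤ C := by positivity
  have hnode := node_of_le (hu1.trans inf_le_left)
  have hple : ∀ᶠ p in (u : Filter (ℕ × ℝ × ℝ)), ∀ V : Set UnitAddCircle,
      om (zp (desc G p F)) V ≤ ENNReal.ofReal C * om (zp p) V := by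
    filter_upwards [hnode] with p hp V
    exact om_le (om_desc hG hp) hC0 V
  refine mapClusterPt_iff_ultrafilter.mpr ⟨u.map (fun p => desc G p F), ?_, ?_⟩
  · rw [Ultrafilter.coe_map]
    refine le_inf ?_ ?_
    · exact (tendsto_desc hG).mono_left (hu1.trans inf_le_left)
    · rw [le_GG_iff]
      intro V hV
      rw [tendsto_map'_iff]
      have h1 := (le_GG_iff.mp (hu1.trans inf_le_right)) V hV
      have h2 : Tendsto (fun p => ENNReal.ofReal C * om (zp p) Vᶜ) u (𝓝 0) := by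
        have := ENNReal.Tendsto.const_mul (a := ENNReal.ofReal C) h1
          (Or.inr ENNReal.ofReal_ne_top)
        rwa [mul_zero] at this
      refine tendsto_of_tendsto_of_tendsto_of_le_of_le' tendsto_const_nhds h2
        (Eventually.of_forall fun _ => zero_le) ?_
      filter_upwards [hple] with p hp
      exact hp Vᶜ
  · rw [Ultrafilter.coe_map, tendsto_map'_iff, Metric.tendsto_nhds]
    intro ε hε
    have h3 : ∀ᶠ p in (u : Filter (ℕ × ℝ × ℝ)),
        C * ∫ t, ‖f t - c‖ ^ 2 ∂(om (zp p)) < (ε / 2) * (ε / 2) := by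
      have h4 := hvar.const_mul C
      rw [mul_zero] at h4
      exact h4.eventually_lt_const (by positivity)
    filter_upwards [hnode, hple, h3] with p hp1 hp2 hp3
    have hz := norm_zp_lt hp1
    have hz' := norm_zp_lt (desc_spec hG hp1).2.1
    have h5 := norm_integral_sub_le hz' hf c (by positivity : 0 < ε / 2)
    have h6 : ∫ t, ‖f t - c‖ ^ 2 ∂(om (zp (desc G p F)))
        ≤ C * ∫ t, ‖f t - c‖ ^ 2 ∂(om (zp p)) := by
      have h7 : om (zp (desc G p F)) ≤ ENNReal.ofReal C • om (zp p) := by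
        intro V
        exact hp2 V
      have := isProb_om hz
      have hint : Integrable (fun t => ‖f t - c‖ ^ 2) (om (zp p)) := by
        refine Integrable.of_bound ?_ ((B + ‖c‖) ^ 2) ?_
        · exact ((hf.meas.sub stronglyMeasurable_const).norm.pow 2).aestronglyMeasurable
        · filter_upwards [om_ae hf.bdd] with t ht
          have h15 := norm_sub_le (f t) c
          have h16 : ‖f t - c‖ ≤ B + ‖c‖ := by linarith
          rw [Real.norm_of_nonneg (by positivity)]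
          gcongr
      calc ∫ t, ‖f t - c‖ ^ 2 ∂(om (zp (desc G p F)))
          ≤ ∫ t, ‖f t - c‖ ^ 2 ∂(ENNReal.ofReal C • om (zp p)) :=
            integral_mono_measure h7 (Eventually.of_forall fun t => by positivity)
              (hint.smul_measure ENNReal.ofReal_ne_top)
        _ = C * ∫ t, ‖f t - c‖ ^ 2 ∂(om (zp p)) := by
            rw [integral_smul_measure, ENNReal.toReal_ofReal hC0, smul_eq_mul]
    have h8 : (∫ t, ‖f t - c‖ ^ 2 ∂(om (zp (desc G p F)))) / (ε / 2) < ε / 2 := by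
      rw [div_lt_iff₀ (by positivity)]
      linarith
    rw [dist_eq_norm]
    simp only [Function.comp_apply]
    linarith

/-- Along a minimal filter, asymptotically real elements of `H^∞ + C` converge. -/
theorem tendsto_of_minimal (hH : HH 𝓕)
    (hmin : ∀ 𝓕' : Filter UnitAddCircle, 𝓕' ≤ 𝓕 → HH 𝓕' → 𝓕 ≤ 𝓕')
    (hf : GoodA f B) (hfr : Tendsto (fun t => (f t).im) 𝓕 (𝓝 0)) :
    ∃ c : ℂ, Tendsto f 𝓕 (𝓝 c) := by
  classical
  have hcomp : ∀ F, IsCompact (KK 𝓕 f F) := fun F =>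
    (isCompact_closedBall (0:ℂ) B).of_isClosed_subset (KK_closed F) (KK_subset hf F)
  obtain ⟨c, hc⟩ := IsCompact.nonempty_iInter_of_directed_nonempty_isCompact_isClosed
    (fun F : Finset (ℕ → Bool) => KK 𝓕 f F) (by
      intro F G
      exact ⟨F ∪ G, KK_anti hf hfr Finset.subset_union_left,
        KK_anti hf hfr Finset.subset_union_right⟩)
    (KK_nonempty hf hH) hcomp KK_closed
  refine ⟨c, ?_⟩
  have h𝓕' : HH (𝓕 ⊓ comap f (𝓝 c)) := by
    intro F
    have hcF : c ∈ KK 𝓕 f F := Set.mem_iInter.mp hc F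
    obtain ⟨u, hu1, hu2⟩ := mapClusterPt_iff_ultrafilter.mp hcF
    have hvar := variance_ultra hf hfr hu1 hu2
    have hnode := node_of_le (hu1.trans inf_le_left)
    have hle : (u : Filter (ℕ × ℝ × ℝ)) ≤ FF F ⊓ GG (𝓕 ⊓ comap f (𝓝 c)) := by
      refine le_inf (hu1.trans inf_le_left) ?_
      rw [le_GG_iff]
      intro V' hV'
      obtain ⟨V, hV, U, hU, rfl⟩ := mem_inf_iff.mp hV'
      obtain ⟨W, hW, hWU⟩ := mem_comap.mp hU
      obtain ⟨ε, hε, hεW⟩ := Metric.mem_nhds_iff.mp hW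
      have h1 := (le_GG_iff.mp (hu1.trans inf_le_right)) V hV
      have h2 : Tendsto (fun p => ENNReal.ofReal
          ((∫ t, ‖f t - c‖ ^ 2 ∂(om (zp p))) / ε ^ 2)) u (𝓝 0) := by
        have h3 := ENNReal.tendsto_ofReal (hvar.div_const (ε ^ 2))
        rwa [zero_div, ENNReal.ofReal_zero] at h3
      have h4 := h1.add h2
      rw [zero_add] at h4
      refine tendsto_of_tendsto_of_tendsto_of_le_of_le' tendsto_const_nhds h4
        (Eventually.of_forall fun _ => zero_le) ?_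
      filter_upwards [hnode] with p hp
      have hz := norm_zp_lt hp
      have h5 : (V ∩ U)ᶜ ⊆ Vᶜ ∪ {t | ε ≤ ‖f t - c‖} := by
        intro t ht
        by_cases hVt : t ∈ V
        · right
          simp only [Set.mem_ofPred_eq]
          by_contra hcon
          push Not at hcon
          refine ht ⟨hVt, hWU (hεW ?_)⟩
          rw [mem_ball, dist_eq_norm]
          exact hcon
        · left; exact hVt
      calc om (zp p) (V ∩ U)ᶜ ≤ om (zp p) (Vᶜ ∪ {t | ε ≤ ‖f t - c‖}) := measure_mono h5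
        _ ≤ om (zp p) Vᶜ + om (zp p) {t | ε ≤ ‖f t - c‖} := measure_union_le _ _
        _ ≤ _ := by
            gcongr
            exact om_le_variance hz hf c hε
    exact u.neBot.mono hle
  have h1 := hmin _ inf_le_left h𝓕'
  exact tendsto_iff_comap.mpr (h1.trans inf_le_right)

end key

/-- The sets `WW s` are frequent along a filter with property `HH`. -/
lemma WW_frequent {𝓕 : Filter UnitAddCircle} (hH : HH 𝓕) (s : ℕ → Bool) :
    (𝓕 ⊓ 𝓟 (WW s)).NeBot := by
  rw [inf_principal_neBot_iff]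
  intro V hV
  by_contra hcon
  rw [Set.not_nonempty_iff_eq_empty] at hcon
  have h1 : (WW s)ᶜ ∈ 𝓕 := by
    filter_upwards [hV] with t ht hts
    have : t ∈ V ∩ WW s := ⟨ht, hts⟩
    rw [hcon] at this
    exact this
  have := hH {s}
  have h2 : Tendsto (fun p => om (zp p) (WW s)ᶜᶜ) (FF {s} ⊓ GG 𝓕) (𝓝 0) :=
    (le_GG_iff.mp inf_le_right) _ h1
  rw [compl_compl] at h2
  have h3 : ∀ᶠ p in FF {s} ⊓ GG 𝓕, om (zp p) (WW s) < ENNReal.ofReal (1 / 64) :=
    h2.eventually_lt_const (by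
      rw [ENNReal.ofReal_pos]; norm_num)
  have h4 : ∀ᶠ p in FF {s} ⊓ GG 𝓕, Node p.1 {s} p.2.1 p.2.2 := node_of_le inf_le_left
  obtain ⟨p, hp1, hp2⟩ := (h3.and h4).exists
  exact absurd hp1 (not_lt.mpr (le_om_WW hp2))

end Pool.Agent.Helper40_Hinf
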