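import Mathlib

/-!
A tree of intervals labelled by lists: the interval labelled by a list of length `n` is cut in `n`
equal pieces, and the `i`-th piece is labelled by the list with the `i`-th entry removed.
-/

set_option autoImplicit false

namespace Pool.Agent.Helper40_Hinf

variable {α : Type*} [DecidableEq α]

/-- One step of the removal process. -/
noncomputable def stp (p : List α × ℝ) : List α × ℝ :=
  (p.1.eraseIdx ⌊p.1.length * p.2⌋₊, p.1.length * p.2 - ⌊p.1.length * p.2⌋₊)

/-- The interval `[a, a + l)` carries the list `M` in the tree with root `L`. -/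
def Nd (L M : List α) (a l : ℝ) : Prop :=
  0 < l ∧ 0 ≤ a ∧ a + l ≤ 1 ∧ M.length ≤ L.length ∧
  ∀ x ∈ Set.Ico a (a + l), stp^[L.length - M.length] (L, x) = (M, (x - a) / l)

omit [DecidableEq α] in
lemma Nd_root (L : List α) : Nd L L 0 1 := by
  refine ⟨one_pos, le_refl _, by norm_num, le_refl _, fun x _ => ?_⟩
  simp

omit [DecidableEq α] in
lemma Nd_child {L M : List α} {a l : ℝ} (h : Nd L M a l) {i : ℕ} (hi : i < M.length) :
    Nd L (M.eraseIdx i) (a + i * (l / M.length)) (l / M.length) := by
  obtain ⟨hl, ha, hal, hlen, hx⟩ := h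
  have hn : (0:ℝ) < M.length := by
    have : 0 < M.length := by omega
    exact_mod_cast this
  have hi' : (i:ℝ) + 1 ≤ M.length := by exact_mod_cast hi
  have hq : 0 < l / M.length := by positivity
  have hlast : (i:ℝ) * (l / M.length) + l / M.length ≤ l := by
    calc (i:ℝ) * (l / M.length) + l / M.length = ((i:ℝ) + 1) * (l / M.length) := by ring
      _ ≤ M.length * (l / M.length) := by gcongr
      _ = l := by field_simp
  refine ⟨hq, by positivity, by linarith, ?_, ?_⟩
  · rw [List.length_eraseIdx_of_lt hi]; omega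
  · intro x hxm
    have hi0 : 0 ≤ (i:ℝ) * (l / M.length) := by positivity
    have hxm' : x ∈ Set.Ico a (a + l) := ⟨by linarith [hxm.1], by linarith [hxm.2]⟩
    rw [List.length_eraseIdx_of_lt hi]
    have he : L.length - (M.length - 1) = (L.length - M.length) + 1 := by omega
    rw [he, Function.iterate_succ_apply', hx x hxm', stp]
    have hy1 : (i:ℝ) ≤ M.length * ((x - a) / l) := by
      have := hxm.1
      rw [← sub_nonneg]
      have h2 : M.length * ((x - a) / l) - i = (x - (a + i * (l / M.length))) * (M.length / l) := by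
        field_simp
        ring
      rw [h2]
      have : 0 ≤ x - (a + i * (l / M.length)) := by linarith
      positivity
    have hy2 : M.length * ((x - a) / l) < i + 1 := by
      have := hxm.2
      rw [← sub_pos]
      have h2 : (i:ℝ) + 1 - M.length * ((x - a) / l)
          = ((a + i * (l / M.length) + l / M.length) - x) * (M.length / l) := by
        field_simp
        ring
      rw [h2]
      have : 0 < (a + i * (l / M.length) + l / M.length) - x := by linarith
      positivity
    have hfl : ⌊(M.length : ℝ) * ((x - a) / l)⌋₊ = i := by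
      rw [Nat.floor_eq_iff (le_trans (by positivity) hy1)]
      exact ⟨hy1, hy2⟩
    simp only
    rw [hfl]
    refine Prod.ext rfl ?_
    simp only
    field_simp
    ring

/-- Labelled by a finite set. -/
def NdS (L : List α) (A : Finset α) (a l : ℝ) : Prop :=
  ∃ M : List α, M.Nodup ∧ M.toFinset = A ∧ Nd L M a l

lemma NdS_root {L : List α} (hL : L.Nodup) : NdS L L.toFinset 0 1 := ⟨L, hL, rfl, Nd_root L⟩

lemma NdS_child {L : List α} {A : Finset α} {a l : ℝ} (h : NdS L A a l) {b : α} (hb : b ∈ A) :
    ∃ a', NdS L (A.erase b) a' (l / A.card) ∧ a ≤ a' ∧ a' + l / A.card ≤ a + l := by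
  obtain ⟨M, hM, hMA, hN⟩ := h
  have hbM : b ∈ M := by rw [← List.mem_toFinset, hMA]; exact hb
  have hcard : M.length = A.card := by rw [← hMA, List.toFinset_card_of_nodup hM]
  have hi : M.idxOf b < M.length := List.idxOf_lt_length_iff.mpr hbM
  have hch := Nd_child hN hi
  have hl := hN.1
  have hn : (0:ℝ) < M.length := by
    have : 0 < M.length := by omega
    exact_mod_cast this
  refine ⟨a + (M.idxOf b) * (l / M.length), ⟨M.eraseIdx (M.idxOf b), ?_, ?_, ?_⟩, ?_, ?_⟩
  · exact hM.sublist (List.eraseIdx_sublist _ _)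
  · have he : M.eraseIdx (M.idxOf b) = M.erase b := by
      rw [List.erase_eq_eraseIdx_of_idxOf]
      rfl
    rw [he]
    ext c
    rw [List.mem_toFinset, hM.mem_erase_iff, Finset.mem_erase, ← hMA, List.mem_toFinset]
  · rw [← hcard]; exact hch
  · have : 0 ≤ ((M.idxOf b : ℕ) : ℝ) * (l / M.length) := by positivity
    linarith
  · rw [← hcard]
    have hi' : ((M.idxOf b : ℕ):ℝ) + 1 ≤ M.length := by exact_mod_cast hi
    have : ((M.idxOf b : ℕ):ℝ) * (l / M.length) + l / M.length ≤ l := by
      calc ((M.idxOf b : ℕ):ℝ) * (l / M.length) + l / M.length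
          = (((M.idxOf b : ℕ):ℝ) + 1) * (l / M.length) := by ring
        _ ≤ M.length * (l / M.length) := by gcongr
        _ = l := by field_simp
    linarith

lemma NdS_descend {L : List α} (n : ℕ) : ∀ {A : Finset α} {a l : ℝ}, A.card = n → NdS L A a l →
    ∀ {B : Finset α}, B ⊆ A →
    ∃ a' l', NdS L B a' l' ∧ a ≤ a' ∧ a' + l' ≤ a + l ∧ l ≤ (n.factorial : ℝ) * l' := by
  induction n with
  | zero =>
    intro A a l hA h B hB
    rw [Finset.card_eq_zero] at hA
    subst hA
    rw [Finset.subset_empty] at hB
    subst hB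
    exact ⟨a, l, h, le_refl _, le_refl _, by simp⟩
  | succ n ih =>
    intro A a l hA h B hB
    by_cases hBA : B = A
    · subst hBA
      refine ⟨a, l, h, le_refl _, le_refl _, ?_⟩
      have hl : 0 < l := by
        obtain ⟨M, _, _, hN⟩ := h
        exact hN.1
      have : (1:ℝ) ≤ ((n + 1).factorial : ℝ) := by exact_mod_cast Nat.factorial_pos _
      nlinarith
    · obtain ⟨b, hbA, hbB⟩ : ∃ b ∈ A, b ∉ B := by
        by_contra hcon
        push Not at hcon
        exact hBA (Finset.Subset.antisymm hB hcon)
      obtain ⟨a1, h1, h2, h3⟩ := NdS_child h hbA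
      have hc : (A.erase b).card = n := by
        rw [Finset.card_erase_of_mem hbA, hA]; rfl
      obtain ⟨a', l', h4, h5, h6, h7⟩ := ih hc h1 (B := B) (by
        intro c hc
        rw [Finset.mem_erase]
        exact ⟨fun he => hbB (he ▸ hc), hB hc⟩)
      refine ⟨a', l', h4, by linarith, by linarith, ?_⟩
      rw [hA] at h7
      rw [Nat.factorial_succ]
      push_cast
      have hn : (0:ℝ) < (n:ℝ) + 1 := by positivity
      rw [div_le_iff₀ (by push_cast; exact hn)] at h7
      push_cast at h7
      linarith

lemma NdS_leaf {L : List α} {b : α} {a l : ℝ} (h : NdS L {b} a l) {x : ℝ}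
    (hx : x ∈ Set.Ico a (a + l)) : (stp^[L.length - 1] (L, x)).1 = [b] := by
  obtain ⟨M, hM, hMA, hN⟩ := h
  have hlen : M.length = 1 := by
    rw [← List.toFinset_card_of_nodup hM, hMA]; rfl
  obtain ⟨c, rfl⟩ := List.length_eq_one_iff.mp hlen
  have hcb : c = b := by
    have : c ∈ ([c] : List α).toFinset := by simp
    rw [hMA, Finset.mem_singleton] at this
    exact this
  subst hcb
  have := hN.2.2.2.2 x hx
  rw [List.length_singleton] at this
  rw [this]

end Pool.Agent.Helper40_Hinf
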