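import Pool.Agent.Helper40_Hinf.Conc
import Pool.Agent.Helper40_Hinf.Tree

/-!
The arcs near the point `1` labelled by finite sets of 0-1-sequences, and the sets `W s`.
-/

set_option autoImplicit false

open MeasureTheory Filter Topology AddCircle Metric
open scoped ENNReal Real

namespace Pool.Agent.Helper40_Hinf

/-- Restriction of a 0-1-sequence to its first `m` entries. -/
def res (m : ℕ) (s : ℕ → Bool) : Fin m → Bool := fun i => s i

/-- The list of all 0-1-words of length `m`. -/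
noncomputable def LL (m : ℕ) : List (Fin m → Bool) := Finset.univ.toList

lemma LL_nodup (m : ℕ) : (LL m).Nodup := Finset.nodup_toList _

lemma LL_toFinset (m : ℕ) : (LL m).toFinset = Finset.univ := Finset.toList_toFinset _

/-- Scale of level `m`. -/
noncomputable def sc (m : ℕ) : ℝ := (1 / 2) ^ (m + 2)

lemma sc_pos (m : ℕ) : 0 < sc m := by unfold sc; positivity

lemma sc_le (m : ℕ) : sc m ≤ 1 / 4 := by
  unfold sc
  calc ((1:ℝ) / 2) ^ (m + 2) ≤ (1 / 2) ^ 2 :=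
        pow_le_pow_of_le_one (by norm_num) (by norm_num) (by omega)
    _ = 1 / 4 := by norm_num

lemma sc_anti {m n : ℕ} (h : m ≤ n) : sc n ≤ sc m := by
  unfold sc
  exact pow_le_pow_of_le_one (by norm_num) (by norm_num) (by omega)

lemma sc_lt {m n : ℕ} (h : m < n) : 2 * sc n ≤ sc m := by
  have h1 : sc n ≤ sc (m + 1) := sc_anti h
  have h2 : 2 * sc (m + 1) = sc m := by unfold sc; ring
  linarith

lemma sc_tendsto : Tendsto sc atTop (𝓝 0) := by
  have h := tendsto_pow_atTop_nhds_zero_of_lt_one (r := (1/2 : ℝ)) (by norm_num) (by norm_num)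
  exact (tendsto_add_atTop_iff_nat 2).mpr h

open Classical in
/-- `Node m F a l`: the interval `[a, a + l]` is labelled, in the tree of level `m`, by the
restrictions of the elements of `F`. -/
def Node (m : ℕ) (F : Finset (ℕ → Bool)) (a l : ℝ) : Prop :=
  ∃ a0 l0 : ℝ, NdS (LL m) (F.image (res m)) a0 l0 ∧ a = sc m * (1 + a0) ∧ l = sc m * l0

lemma Node_bounds {m : ℕ} {F : Finset (ℕ → Bool)} {a l : ℝ} (h : Node m F a l) :
    0 < l ∧ l ≤ sc m ∧ sc m ≤ a ∧ a + l ≤ 2 * sc m := by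
  obtain ⟨a0, l0, ⟨M, _, _, hN⟩, rfl, rfl⟩ := h
  have h1 := hN.1
  have h2 := hN.2.1
  have h3 := hN.2.2.1
  have h4 := sc_pos m
  refine ⟨by positivity, ?_, ?_, ?_⟩ <;> nlinarith

lemma Node_descend {m : ℕ} {F G : Finset (ℕ → Bool)} {a l : ℝ} (h : Node m F a l) (hG : G ⊆ F) :
    ∃ a' l', Node m G a' l' ∧ a ≤ a' ∧ a' + l' ≤ a + l ∧ l ≤ (F.card.factorial : ℝ) * l' := by
  classical
  obtain ⟨a0, l0, hS, rfl, rfl⟩ := h
  have hsub : G.image (res m) ⊆ F.image (res m) := Finset.image_subset_image hG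
  obtain ⟨a', l', h1, h2, h3, h4⟩ := NdS_descend _ rfl hS hsub
  have h5 := sc_pos m
  have hl' : 0 < l' := by
    obtain ⟨M, _, _, hN⟩ := h1
    exact hN.1
  refine ⟨sc m * (1 + a'), sc m * l', ⟨a', l', h1, rfl, rfl⟩, by nlinarith, by nlinarith, ?_⟩
  have h6 : ((F.image (res m)).card.factorial : ℝ) ≤ (F.card.factorial : ℝ) := by
    exact_mod_cast Nat.factorial_le Finset.card_image_le
  have h7 : l0 ≤ (F.card.factorial : ℝ) * l' := by
    refine h4.trans ?_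
    gcongr
  calc sc m * l0 ≤ sc m * ((F.card.factorial : ℝ) * l') := by gcongr
    _ = (F.card.factorial : ℝ) * (sc m * l') := by ring

lemma Node_exists (m : ℕ) (F : Finset (ℕ → Bool)) : ∃ a l, Node m F a l := by
  classical
  have h1 := NdS_root (LL_nodup m)
  rw [LL_toFinset] at h1
  obtain ⟨a', l', h2, _⟩ := NdS_descend _ rfl h1 (B := F.image (res m)) (Finset.subset_univ _)
  exact ⟨_, _, a', l', h2, rfl, rfl⟩

/-- The set attached to a 0-1-sequence. -/
def WW (s : ℕ → Bool) : Set UnitAddCircle :=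
  ⋃ (m : ℕ) (a : ℝ) (l : ℝ) (_ : Node m {s} a l), arc a l

lemma isOpen_WW (s : ℕ → Bool) : IsOpen (WW s) :=
  isOpen_iUnion fun _ => isOpen_iUnion fun _ => isOpen_iUnion fun _ => isOpen_iUnion fun _ =>
    isOpen_arc _ _

lemma arc_subset_WW {m : ℕ} {s : ℕ → Bool} {a l : ℝ} (h : Node m {s} a l) : arc a l ⊆ WW s := by
  intro x hx
  simp only [WW, Set.mem_iUnion]
  exact ⟨m, a, l, h, hx⟩

lemma mem_WW {s : ℕ → Bool} {p : UnitAddCircle} (hp : p ∈ WW s) :
    ∃ (m : ℕ) (x : ℝ), (x : UnitAddCircle) = p ∧ sc m ≤ x ∧ x < 2 * sc m ∧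
      (stp^[(LL m).length - 1] (LL m, x / sc m - 1)).1 = [res m s] := by
  classical
  simp only [WW, Set.mem_iUnion] at hp
  obtain ⟨m, a, l, hN, hp⟩ := hp
  obtain ⟨x, hx, rfl⟩ := hp
  have hb := Node_bounds hN
  obtain ⟨a0, l0, hS, rfl, rfl⟩ := hN
  rw [Finset.image_singleton] at hS
  have h5 := sc_pos m
  refine ⟨m, x, rfl, by linarith [hx.1, hb.2.2.1], by linarith [hx.2, hb.2.2.2], ?_⟩
  refine NdS_leaf hS ⟨?_, ?_⟩
  · have := hx.1
    rw [le_sub_iff_add_le, le_div_iff₀ h5]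
    linarith
  · have := hx.2
    rw [sub_lt_iff_lt_add, div_lt_iff₀ h5]
    linarith

lemma WW_inter {s t : ℕ → Bool} (hst : s ≠ t) :
    ∃ δ : ℝ, 0 < δ ∧ ∀ p ∈ WW s ∩ WW t, δ ≤ ‖p‖ := by
  obtain ⟨n, hn⟩ := Function.ne_iff.mp hst
  refine ⟨sc n, sc_pos n, ?_⟩
  rintro p ⟨hp1, hp2⟩
  obtain ⟨m, x, hxp, hx1, hx2, hx3⟩ := mem_WW hp1
  obtain ⟨m', x', hxp', hx1', hx2', hx3'⟩ := mem_WW hp2
  have h1 := sc_pos m
  have h2 := sc_pos m'
  have h3 := sc_le m
  have h4 := sc_le m'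
  have hxx : x = x' := by
    have h5 : (x : UnitAddCircle) = (x' : UnitAddCircle) := by rw [hxp, hxp']
    exact (AddCircle.coe_eq_coe_iff_of_mem_Ico (p := (1:ℝ)) (a := 0)
      (x := x) (y := x') ⟨by linarith, by linarith⟩ ⟨by linarith, by linarith⟩).mp h5
  subst hxx
  have hmm : m = m' := by
    rcases lt_trichotomy m m' with h | h | h
    · have := sc_lt h; linarith
    · exact h
    · have := sc_lt h; linarith
  subst hmm
  have hres : res m s = res m t := by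
    rw [hx3] at hx3'
    simpa using hx3'
  have hmn : m ≤ n := by
    by_contra hcon
    push Not at hcon
    exact hn (congrFun hres ⟨n, hcon⟩)
  rw [← hxp, (AddCircle.norm_coe_eq_abs_iff 1 one_ne_zero).mpr]
  · rw [abs_of_pos (by linarith)]
    linarith [sc_anti hmn]
  · rw [abs_of_pos (by linarith : 0 < x)]
    norm_num
    linarith

lemma norm_pt_sub_one {m : ℕ} {F : Finset (ℕ → Bool)} {a l : ℝ} (h : Node m F a l) :
    ‖pt a l - 1‖ ≤ 15 * sc m := by
  obtain ⟨h1, h2, h3, h4⟩ := Node_bounds h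
  have h5 := sc_le m
  have h6 : pt a l - 1 = (ee (a : UnitAddCircle) - ee ((0 : ℝ) : UnitAddCircle))
      - (l : ℂ) * ee (a : UnitAddCircle) := by
    have : ee ((0 : ℝ) : UnitAddCircle) = 1 := ee_zero
    rw [pt, this]; push_cast; ring
  rw [h6]
  have h7 := norm_ee_sub_le a 0
  rw [sub_zero, abs_of_pos (by linarith [sc_pos m])] at h7
  have h8 : ‖(l : ℂ) * ee (a : UnitAddCircle)‖ = l := by
    rw [norm_mul, norm_ee, mul_one, Complex.norm_real, Real.norm_of_nonneg h1.le]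
  have h9 : π ≤ 3.5 := by linarith [Real.pi_lt_d2]
  have h10 := norm_sub_le (ee (a : UnitAddCircle) - ee ((0 : ℝ) : UnitAddCircle))
    ((l : ℂ) * ee (a : UnitAddCircle))
  have h11 : 2 * π * a ≤ 2 * 3.5 * (2 * sc m) := by
    have : 0 ≤ a := by linarith [sc_pos m]
    have h12 : a ≤ 2 * sc m := by linarith
    have := mul_le_mul h9 h12 this (by norm_num)
    linarith
  linarith

/-- The parameter filter: levels tend to infinity, nodes labelled by `F`. -/
def FF (F : Finset (ℕ → Bool)) : Filter (ℕ × ℝ × ℝ) :=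
  comap Prod.fst atTop ⊓ 𝓟 {p | Node p.1 F p.2.1 p.2.2}

/-- The disc point of a parameter. -/
noncomputable def zp (p : ℕ × ℝ × ℝ) : ℂ := pt p.2.1 p.2.2

instance FF_neBot (F : Finset (ℕ → Bool)) : (FF F).NeBot := by
  unfold FF
  rw [inf_principal_neBot_iff]
  intro U hU
  obtain ⟨V, hV, hVU⟩ := mem_comap.mp hU
  obtain ⟨m0, hm0⟩ := mem_atTop_sets.mp hV
  obtain ⟨a, l, h⟩ := Node_exists m0 F
  exact ⟨(m0, a, l), hVU (hm0 m0 le_rfl), h⟩

lemma FF_node (F : Finset (ℕ → Bool)) : ∀ᶠ p in FF F, Node p.1 F p.2.1 p.2.2 := by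
  unfold FF
  exact mem_inf_of_right (mem_principal_self _)

lemma norm_zp_lt {F : Finset (ℕ → Bool)} {p : ℕ × ℝ × ℝ} (h : Node p.1 F p.2.1 p.2.2) :
    ‖zp p‖ < 1 := by
  obtain ⟨h1, h2, h3, h4⟩ := Node_bounds h
  have h5 := sc_le p.1
  rw [zp, norm_pt (by linarith)]
  linarith

lemma tendsto_zp (F : Finset (ℕ → Bool)) : Tendsto zp (FF F) (𝓝[ball 0 1] (1 : ℂ)) := by
  refine tendsto_nhdsWithin_iff.mpr ⟨?_, ?_⟩
  · rw [tendsto_iff_norm_sub_tendsto_zero]
    have h1 : Tendsto (fun p : ℕ × ℝ × ℝ => 15 * sc p.1) (FF F) (𝓝 0) := by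
      have h2 : Tendsto (fun m : ℕ => 15 * sc m) atTop (𝓝 0) := by
        have := sc_tendsto.const_mul 15
        rwa [mul_zero] at this
      have h3 : Tendsto (fun p : ℕ × ℝ × ℝ => p.1) (FF F) atTop :=
        tendsto_comap.mono_left inf_le_left
      exact h2.comp h3
    refine tendsto_of_tendsto_of_tendsto_of_le_of_le' tendsto_const_nhds h1
      (Eventually.of_forall fun _ => norm_nonneg _) ?_
    filter_upwards [FF_node F] with p hp
    exact norm_pt_sub_one hp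
  · filter_upwards [FF_node F] with p hp
    simpa using norm_zp_lt hp

open Classical in
/-- Choice of a descendant. -/
noncomputable def desc (G : Finset (ℕ → Bool)) (p : ℕ × ℝ × ℝ) (F : Finset (ℕ → Bool)) :
    ℕ × ℝ × ℝ :=
  if h : ∃ q : ℝ × ℝ, Node p.1 G q.1 q.2 ∧ p.2.1 ≤ q.1 ∧ q.1 + q.2 ≤ p.2.1 + p.2.2 ∧
    p.2.2 ≤ (F.card.factorial : ℝ) * q.2 then (p.1, h.choose) else p

lemma desc_spec {F G : Finset (ℕ → Bool)} (hG : G ⊆ F) {p : ℕ × ℝ × ℝ}
    (hp : Node p.1 F p.2.1 p.2.2) :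
    (desc G p F).1 = p.1 ∧ Node (desc G p F).1 G (desc G p F).2.1 (desc G p F).2.2 ∧
    p.2.1 ≤ (desc G p F).2.1 ∧ (desc G p F).2.1 + (desc G p F).2.2 ≤ p.2.1 + p.2.2 ∧
    p.2.2 ≤ (F.card.factorial : ℝ) * (desc G p F).2.2 := by
  have h : ∃ q : ℝ × ℝ, Node p.1 G q.1 q.2 ∧ p.2.1 ≤ q.1 ∧ q.1 + q.2 ≤ p.2.1 + p.2.2 ∧
      p.2.2 ≤ (F.card.factorial : ℝ) * q.2 := by
    obtain ⟨a', l', h1⟩ := Node_descend hp hG
    exact ⟨(a', l'), h1⟩
  have he : desc G p F = (p.1, h.choose) := by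
    unfold desc; rw [dif_pos h]
  rw [he]
  exact ⟨rfl, h.choose_spec⟩

lemma tendsto_desc {F G : Finset (ℕ → Bool)} (hG : G ⊆ F) :
    Tendsto (fun p => desc G p F) (FF F) (FF G) := by
  have h0 : FF G = comap Prod.fst atTop ⊓ 𝓟 {p | Node p.1 G p.2.1 p.2.2} := rfl
  rw [h0, tendsto_inf]
  constructor
  · rw [tendsto_comap_iff]
    have h3 : Tendsto (fun p : ℕ × ℝ × ℝ => p.1) (FF F) atTop :=
      tendsto_comap.mono_left inf_le_left
    refine h3.congr' ?_
    filter_upwards [FF_node F] with p hp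
    exact ((desc_spec hG hp).1).symm
  · rw [tendsto_principal]
    filter_upwards [FF_node F] with p hp
    exact (desc_spec hG hp).2.1

lemma om_desc {F G : Finset (ℕ → Bool)} (hG : G ⊆ F) {p : ℕ × ℝ × ℝ}
    (hp : Node p.1 F p.2.1 p.2.2) (t : UnitAddCircle) :
    PK (zp (desc G p F)) t ≤ 2 * (1 + 9 * (F.card.factorial : ℝ)) ^ 2 * PK (zp p) t := by
  obtain ⟨h1, h2, h3, h4, h5⟩ := desc_spec hG hp
  obtain ⟨k1, k2, k3, k4⟩ := Node_bounds hp
  obtain ⟨m1, m2, m3, m4⟩ := Node_bounds h2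
  have h6 := sc_le p.1
  exact harnack_pt k1 (by linarith) m1 (by linarith) h3 (by linarith) h5 t

lemma le_om_WW {s : ℕ → Bool} {p : ℕ × ℝ × ℝ} (hp : Node p.1 {s} p.2.1 p.2.2) :
    ENNReal.ofReal (1 / 64) ≤ om (zp p) (WW s) := by
  obtain ⟨k1, k2, k3, k4⟩ := Node_bounds hp
  have h6 := sc_le p.1
  exact (le_om_arc k1 (by linarith)).trans (measure_mono (arc_subset_WW hp))

end Pool.Agent.Helper40_Hinf
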