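import Pool.Agent.Helper40_Hinf.Nodes

/-!
Asymptotic multiplicativity of harmonic measures on `H^∞ + C` and the variance argument.
-/

set_option autoImplicit false

open MeasureTheory Filter Topology AddCircle Metric
open scoped ENNReal Real

namespace Pool.Agent.Helper40_Hinf

/-- `f` is bounded measurable and agrees almost everywhere with a sum of a bounded function with
vanishing negative Fourier coefficients and a continuous function. -/
structure GoodA (f : UnitAddCircle → ℂ) (B : ℝ) : Prop where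
  meas : StronglyMeasurable f
  bdd : ∀ᵐ t ∂(volume : Measure UnitAddCircle), ‖f t‖ ≤ B
  split : ∃ (h : UnitAddCircle → ℂ) (g : C(UnitAddCircle, ℂ)) (D : ℝ),
    AEStronglyMeasurable h volume ∧ (∀ᵐ t ∂(volume : Measure UnitAddCircle), ‖h t‖ ≤ D) ∧
    (∀ n : ℤ, n < 0 → fourierCoeff h n = 0) ∧
    f =ᵐ[(volume : Measure UnitAddCircle)] fun t => h t + g t

lemma om_ae {z : ℂ} {p : UnitAddCircle → Prop}
    (h : ∀ᵐ t ∂(volume : Measure UnitAddCircle), p t) : ∀ᵐ t ∂(om z), p t := (om_ac z).ae_le h

/-- A bound for an integral by an expectation of a small quantity plus the measure of a bad set. -/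
lemma integral_le_of_bad {z : ℂ} (hz : ‖z‖ < 1) {u : UnitAddCircle → ℝ} {B δ : ℝ}
    (hu : StronglyMeasurable u) (hB : ∀ᵐ t ∂(volume : Measure UnitAddCircle), u t ≤ B)
    (hu0 : ∀ t, 0 ≤ u t) (hδ : 0 ≤ δ) :
    ∫ t, u t ∂(om z) ≤ δ + B * (om z {t | δ ≤ u t}).toReal := by
  have := isProb_om hz
  have hs : MeasurableSet {t | δ ≤ u t} := measurableSet_le measurable_const hu.measurable
  have h1 : ∫ t, u t ∂(om z) ≤ ∫ t, (δ + ({t | δ ≤ u t}).indicator (fun _ => B) t) ∂(om z) := by
    refine integral_mono_ae ?_ ?_ ?_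
    · refine Integrable.of_bound hu.aestronglyMeasurable B ?_
      filter_upwards [om_ae hB] with t ht
      rw [Real.norm_of_nonneg (hu0 t)]
      exact ht
    · exact (integrable_const δ).add ((integrable_const B).indicator hs)
    · filter_upwards [om_ae hB] with t ht
      by_cases h : t ∈ {t | δ ≤ u t}
      · simp only [Set.indicator_of_mem h]
        linarith
      · simp only [Set.indicator_of_notMem h]
        have : u t < δ := not_le.mp h
        linarith
  rw [integral_add (integrable_const δ) ((integrable_const B).indicator hs), integral_const,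
    integral_indicator_const _ hs] at h1
  simp only [measureReal_def, measure_univ, ENNReal.toReal_one, smul_eq_mul] at h1
  linarith [mul_comm B (om z {t | δ ≤ u t}).toReal]

/-- If the bad sets have small measure then the integral is small. -/
lemma tendsto_integral_of_bad {ι : Type*} {𝒰 : Filter ι} {zz : ι → ℂ}
    (hzz : ∀ᶠ i in 𝒰, ‖zz i‖ < 1) {u : UnitAddCircle → ℝ} {B : ℝ}
    (hu : StronglyMeasurable u) (hB : ∀ᵐ t ∂(volume : Measure UnitAddCircle), u t ≤ B)
    (hu0 : ∀ t, 0 ≤ u t)
    (hbad : ∀ δ : ℝ, 0 < δ → Tendsto (fun i => om (zz i) {t | δ ≤ u t}) 𝒰 (𝓝 0)) :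
    Tendsto (fun i => ∫ t, u t ∂(om (zz i))) 𝒰 (𝓝 0) := by
  set B' := max B 0 with hB'
  have hB1 : ∀ᵐ t ∂(volume : Measure UnitAddCircle), u t ≤ B' := by
    filter_upwards [hB] with t ht
    exact ht.trans (le_max_left _ _)
  have hB0 : 0 ≤ B' := le_max_right _ _
  rw [Metric.tendsto_nhds]
  intro ε hε
  have h1 := hbad (ε / 2) (by positivity)
  have h2 : Tendsto (fun i => B' * (om (zz i) {t | ε / 2 ≤ u t}).toReal) 𝒰 (𝓝 0) := by
    have := (ENNReal.tendsto_toReal ENNReal.zero_ne_top).comp h1
    have := this.const_mul B'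
    simpa using this
  have h3 : ∀ᶠ i in 𝒰, B' * (om (zz i) {t | ε / 2 ≤ u t}).toReal < ε / 2 :=
    h2.eventually_lt_const (by positivity)
  filter_upwards [hzz, h3] with i hi1 hi2
  have h4 := integral_le_of_bad hi1 hu hB1 hu0 (by positivity : 0 ≤ ε / 2)
  have h5 : 0 ≤ ∫ t, u t ∂(om (zz i)) := integral_nonneg hu0
  rw [Real.dist_eq, sub_zero, abs_of_nonneg h5]
  linarith

/-- Continuous functions are asymptotically constant. -/
lemma tendsto_osc (g : C(UnitAddCircle, ℂ)) :
    Tendsto (fun z => ∫ t, ‖g t - g 0‖ ∂(om z)) (𝓝[ball 0 1] (1 : ℂ)) (𝓝 0) := by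
  have hcont : Continuous fun t => ‖g t - g 0‖ := (g.continuous.sub continuous_const).norm
  refine tendsto_integral_of_bad (zz := id) (B := ‖g‖ + ‖g‖) ?_ hcont.stronglyMeasurable ?_
    (fun _ => norm_nonneg _) ?_
  · filter_upwards [self_mem_nhdsWithin] with z hz
    simpa using hz
  · refine Eventually.of_forall fun t => ?_
    exact (norm_sub_le _ _).trans (add_le_add (g.norm_coe_le_norm t) (g.norm_coe_le_norm 0))
  · intro δ hδ
    have h1 : {t : UnitAddCircle | ‖g t - g 0‖ < δ} ∈ 𝓝 (0 : UnitAddCircle) := by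
      refine (isOpen_lt hcont continuous_const).mem_nhds ?_
      simpa using hδ
    have h2 := tendsto_om_compl h1
    have h3 : {t : UnitAddCircle | ‖g t - g 0‖ < δ}ᶜ = {t | δ ≤ ‖g t - g 0‖} := by
      ext t; simp
    rw [h3] at h2
    exact h2

lemma norm_integral_le_B {z : ℂ} (hz : ‖z‖ < 1) {f : UnitAddCircle → ℂ} {B : ℝ}
    (hB : ∀ᵐ t ∂(volume : Measure UnitAddCircle), ‖f t‖ ≤ B) :
    ‖∫ t, f t ∂(om z)‖ ≤ B := by
  have := isProb_om hz
  have := norm_integral_le_of_norm_le_const (om_ae (z := z) hB)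
  simpa using this

lemma integrable_om {z : ℂ} (hz : ‖z‖ < 1) {f : UnitAddCircle → ℂ} {B : ℝ}
    (hm : AEStronglyMeasurable f volume)
    (hB : ∀ᵐ t ∂(volume : Measure UnitAddCircle), ‖f t‖ ≤ B) : Integrable f (om z) := by
  have := isProb_om hz
  exact Integrable.of_bound (hm.mono_ac (om_ac z)) B (om_ae hB)

/-- Asymptotic multiplicativity. -/
lemma asymp_mult {f : UnitAddCircle → ℂ} {B : ℝ} (hf : GoodA f B) :
    Tendsto (fun z => (∫ t, f t * f t ∂(om z)) - (∫ t, f t ∂(om z)) * ∫ t, f t ∂(om z))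
      (𝓝[ball 0 1] (1 : ℂ)) (𝓝 0) := by
  obtain ⟨h, g, D, hh1, hh2, hh3, hfe⟩ := hf.split
  set c := g 0 with hc
  set M := D + ‖c‖ with hM
  -- comparison
  have key : ∀ z : ℂ, ‖z‖ < 1 →
      ‖(∫ t, f t * f t ∂(om z)) - (∫ t, f t ∂(om z)) * ∫ t, f t ∂(om z)‖ ≤
        (2 * (B + M)) * ∫ t, ‖g t - g 0‖ ∂(om z) := by
    intro z hz
    have := isProb_om hz
    have hD : ∀ᵐ t ∂(volume : Measure UnitAddCircle), ‖h t + c‖ ≤ M := by
      filter_upwards [hh2] with t ht
      exact (norm_add_le _ _).trans (by linarith)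
    have ih : Integrable h (om z) := integrable_om hz hh1 hh2
    have ih2 : Integrable (fun t => h t * h t) (om z) := by
      refine integrable_om hz (hh1.mul hh1) (B := D * D) ?_
      filter_upwards [hh2] with t ht
      rw [norm_mul]
      exact mul_le_mul ht ht (norm_nonneg _) ((norm_nonneg _).trans ht)
    have hm1 : AEStronglyMeasurable (fun t => h t + c) (volume : Measure UnitAddCircle) :=
      hh1.add aestronglyMeasurable_const
    have if' : Integrable (fun t => h t + c) (om z) := integrable_om hz hm1 hD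
    have if2' : Integrable (fun t => (h t + c) * (h t + c)) (om z) := by
      refine integrable_om hz (hm1.mul hm1) (B := M * M) ?_
      filter_upwards [hD] with t ht
      rw [norm_mul]
      exact mul_le_mul ht ht (norm_nonneg _) ((norm_nonneg _).trans ht)
    have if0 : Integrable f (om z) := integrable_om hz hf.meas.aestronglyMeasurable hf.bdd
    have if2 : Integrable (fun t => f t * f t) (om z) := by
      refine integrable_om hz (hf.meas.aestronglyMeasurable.mul hf.meas.aestronglyMeasurable)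
        (B := B * B) ?_
      filter_upwards [hf.bdd] with t ht
      rw [norm_mul]
      exact mul_le_mul ht ht (norm_nonneg _) ((norm_nonneg _).trans ht)
    have ig : Integrable (fun t => ‖g t - g 0‖) (om z) := by
      have hcont : Continuous fun t => ‖g t - g 0‖ := (g.continuous.sub continuous_const).norm
      exact Integrable.of_bound hcont.aestronglyMeasurable (‖g‖ + ‖g‖)
        (Eventually.of_forall fun t => by
          rw [norm_norm]
          exact (norm_sub_le _ _).trans
            (add_le_add (g.norm_coe_le_norm t) (g.norm_coe_le_norm 0)))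
    -- exact multiplicativity for `h + c`
    have e1 : ∫ t, (h t + c) ∂(om z) = (∫ t, h t ∂(om z)) + c := by
      rw [integral_add ih (integrable_const c), integral_const]
      simp
    have e2 : ∫ t, (h t + c) * (h t + c) ∂(om z)
        = (∫ t, (h t + c) ∂(om z)) * ∫ t, (h t + c) ∂(om z) := by
      rw [e1]
      have e3 : ∀ t, (h t + c) * (h t + c) = h t * h t + (2 * c * h t + c * c) := by
        intro t; ring
      simp only [e3]
      have i3 : Integrable (fun t => 2 * c * h t) (om z) := ih.const_mul (2 * c)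
      have i4 : Integrable (fun t => 2 * c * h t + c * c) (om z) := i3.add (integrable_const _)
      rw [integral_add ih2 i4, integral_add i3 (integrable_const _), integral_const_mul,
        integral_const, mult_om hh1 hh2 hh3 hz]
      simp
      ring
    have hdiff : ∀ᵐ t ∂(om z), f t - (h t + c) = g t - g 0 := by
      filter_upwards [om_ae (z := z) hfe] with t ht
      rw [ht]; ring
    have b1 : ‖(∫ t, f t * f t ∂(om z)) - ∫ t, (h t + c) * (h t + c) ∂(om z)‖
        ≤ (B + M) * ∫ t, ‖g t - g 0‖ ∂(om z) := by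
      rw [← integral_sub if2 if2', ← integral_const_mul]
      refine norm_integral_le_of_norm_le (ig.const_mul _) ?_
      filter_upwards [hdiff, om_ae hf.bdd, om_ae hD] with t h1 h2 h3
      have : f t * f t - (h t + c) * (h t + c) = (f t + (h t + c)) * (f t - (h t + c)) := by ring
      rw [this, h1, norm_mul]
      have h4 := norm_add_le (f t) (h t + c)
      have h5 := norm_nonneg (g t - g 0)
      nlinarith
    have b2 : ‖(∫ t, f t ∂(om z)) - ∫ t, (h t + c) ∂(om z)‖ ≤ ∫ t, ‖g t - g 0‖ ∂(om z) := by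
      rw [← integral_sub if0 if']
      refine norm_integral_le_of_norm_le ig ?_
      filter_upwards [hdiff] with t h1
      rw [h1]
    have b3 : ‖∫ t, f t ∂(om z)‖ ≤ B := norm_integral_le_B hz hf.bdd
    have b4 : ‖∫ t, (h t + c) ∂(om z)‖ ≤ M := norm_integral_le_B hz hD
    have ee' : (∫ t, f t * f t ∂(om z)) - (∫ t, f t ∂(om z)) * ∫ t, f t ∂(om z)
        = ((∫ t, f t * f t ∂(om z)) - ∫ t, (h t + c) * (h t + c) ∂(om z))
        - ((∫ t, f t ∂(om z)) + ∫ t, (h t + c) ∂(om z)) *
          ((∫ t, f t ∂(om z)) - ∫ t, (h t + c) ∂(om z)) := by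
      rw [e2]; ring
    rw [ee']
    have b5 : 0 ≤ ∫ t, ‖g t - g 0‖ ∂(om z) := integral_nonneg fun _ => norm_nonneg _
    have b6 := norm_add_le (∫ t, f t ∂(om z)) (∫ t, (h t + c) ∂(om z))
    have b7 : 0 ≤ B + M := by
      have k1 := norm_nonneg (∫ t, f t ∂(om z))
      have k2 := norm_nonneg (∫ t, (h t + c) ∂(om z))
      linarith
    calc _ ≤ ‖(∫ t, f t * f t ∂(om z)) - ∫ t, (h t + c) * (h t + c) ∂(om z)‖
        + ‖((∫ t, f t ∂(om z)) + ∫ t, (h t + c) ∂(om z)) *
          ((∫ t, f t ∂(om z)) - ∫ t, (h t + c) ∂(om z))‖ := norm_sub_le _ _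
      _ ≤ (B + M) * (∫ t, ‖g t - g 0‖ ∂(om z)) + (B + M) * ∫ t, ‖g t - g 0‖ ∂(om z) := by
          rw [norm_mul]
          gcongr
          linarith
      _ = _ := by ring
  have h2 := (tendsto_osc g).const_mul (2 * (B + M))
  rw [mul_zero] at h2
  refine squeeze_zero_norm' ?_ h2
  filter_upwards [self_mem_nhdsWithin] with z hz
  exact key z (by simpa using hz)

end Pool.Agent.Helper40_Hinf
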