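import Pool.Agent.Helper40_Hinf.Var

/-!
The variance of an element of `H^∞ + C` which is nearly real.
-/

set_option autoImplicit false

open MeasureTheory Filter Topology AddCircle Metric
open scoped ENNReal Real

namespace Pool.Agent.Helper40_Hinf

lemma norm_sq_eq (w : ℂ) : ‖w‖ ^ 2 = (w * w).re + 2 * (|w.im| * |w.im|) := by
  rw [← Complex.normSq_eq_norm_sq, Complex.normSq_apply, Complex.mul_re, abs_mul_abs_self]
  ring

/-- If the averages of a nearly real `f ∈ H^∞ + C` converge to `c`, then so does `f` in mean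
square. -/
lemma tendsto_variance {ι : Type*} {𝒰 : Filter ι} [𝒰.NeBot] {zz : ι → ℂ}
    (hz1 : Tendsto zz 𝒰 (𝓝[ball 0 1] (1 : ℂ)))
    {f : UnitAddCircle → ℂ} {B : ℝ} (hf : GoodA f B) {c : ℂ}
    (hc : Tendsto (fun i => ∫ t, f t ∂(om (zz i))) 𝒰 (𝓝 c))
    (him : ∀ δ : ℝ, 0 < δ → Tendsto (fun i => om (zz i) {t | δ ≤ |(f t).im|}) 𝒰 (𝓝 0)) :
    Tendsto (fun i => ∫ t, ‖f t - c‖ ^ 2 ∂(om (zz i))) 𝒰 (𝓝 0) := by
  have hzz : ∀ᶠ i in 𝒰, ‖zz i‖ < 1 := by
    have := (tendsto_nhdsWithin_iff.mp hz1).2
    filter_upwards [this] with i hi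
    simpa using hi
  have hmim : StronglyMeasurable fun t => |(f t).im| :=
    (Complex.continuous_im.comp_stronglyMeasurable hf.meas).norm
  have h1 : Tendsto (fun i => ∫ t, |(f t).im| ∂(om (zz i))) 𝒰 (𝓝 0) := by
    refine tendsto_integral_of_bad hzz (B := B) hmim ?_ (fun _ => abs_nonneg _) him
    filter_upwards [hf.bdd] with t ht
    exact (Complex.abs_im_le_norm _).trans ht
  -- the limit is real
  have hcim : c.im = 0 := by
    have h2 : Tendsto (fun i => (∫ t, f t ∂(om (zz i))).im) 𝒰 (𝓝 c.im) :=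
      (Complex.continuous_im.tendsto c).comp hc
    have h3 : Tendsto (fun i => (∫ t, f t ∂(om (zz i))).im) 𝒰 (𝓝 0) := by
      refine squeeze_zero_norm' ?_ h1
      filter_upwards [hzz] with i hi
      have hint : Integrable f (om (zz i)) :=
        integrable_om hi hf.meas.aestronglyMeasurable hf.bdd
      have h4 : (∫ t, f t ∂(om (zz i))).im = ∫ t, (f t).im ∂(om (zz i)) := by
        have := integral_im hint (𝕜 := ℂ)
        exact this.symm
      rw [h4]
      exact norm_integral_le_integral_norm _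
    exact tendsto_nhds_unique h2 h3
  -- the square of the imaginary part
  have h5 : Tendsto (fun i => ∫ t, |(f t).im| * |(f t).im| ∂(om (zz i))) 𝒰 (𝓝 0) := by
    have h6 := h1.const_mul B
    rw [mul_zero] at h6
    refine squeeze_zero' (Eventually.of_forall fun i => integral_nonneg fun t => by positivity)
      ?_ h6
    filter_upwards [hzz] with i hi
    have := isProb_om hi
    rw [← integral_const_mul]
    refine integral_mono_ae ?_ ?_ ?_
    · refine Integrable.of_bound (hmim.mul hmim).aestronglyMeasurable (B * B) ?_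
      filter_upwards [om_ae hf.bdd] with t ht
      have h7 := (Complex.abs_im_le_norm (f t)).trans ht
      rw [Real.norm_of_nonneg (by positivity)]
      exact mul_le_mul h7 h7 (abs_nonneg _) ((abs_nonneg _).trans h7)
    · refine Integrable.const_mul ?_ _
      refine Integrable.of_bound hmim.aestronglyMeasurable B ?_
      filter_upwards [om_ae hf.bdd] with t ht
      have h7 := (Complex.abs_im_le_norm (f t)).trans ht
      rwa [Real.norm_of_nonneg (abs_nonneg _)]
    · filter_upwards [om_ae hf.bdd] with t ht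
      have h7 := (Complex.abs_im_le_norm (f t)).trans ht
      exact mul_le_mul_of_nonneg_right h7 (abs_nonneg _)
  -- the square of `f - c`
  have h8 : Tendsto (fun i => ∫ t, f t * f t ∂(om (zz i))) 𝒰 (𝓝 (c * c)) := by
    have h9 := (asymp_mult hf).comp hz1
    have h10 := h9.add (hc.mul hc)
    rw [zero_add] at h10
    refine h10.congr fun i => ?_
    simp only [Function.comp_apply]
    ring
  have h11 : Tendsto (fun i => ∫ t, (f t - c) * (f t - c) ∂(om (zz i))) 𝒰 (𝓝 0) := by
    have h12 : Tendsto (fun i => (∫ t, f t * f t ∂(om (zz i))) - 2 * c * (∫ t, f t ∂(om (zz i)))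
        + c * c) 𝒰 (𝓝 (c * c - 2 * c * c + c * c)) :=
      (h8.sub (hc.const_mul (2 * c))).add_const _
    have h13 : c * c - 2 * c * c + c * c = 0 := by ring
    rw [h13] at h12
    refine h12.congr' ?_
    filter_upwards [hzz] with i hi
    have := isProb_om hi
    have hint : Integrable f (om (zz i)) :=
      integrable_om hi hf.meas.aestronglyMeasurable hf.bdd
    have hint2 : Integrable (fun t => f t * f t) (om (zz i)) := by
      refine integrable_om hi (hf.meas.aestronglyMeasurable.mul hf.meas.aestronglyMeasurable)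
        (B := B * B) ?_
      filter_upwards [hf.bdd] with t ht
      rw [norm_mul]
      exact mul_le_mul ht ht (norm_nonneg _) ((norm_nonneg _).trans ht)
    have e1 : ∀ t, (f t - c) * (f t - c) = (f t * f t - 2 * c * f t) + c * c := by
      intro t; ring
    simp only [e1]
    have i3 : Integrable (fun t => 2 * c * f t) (om (zz i)) := hint.const_mul (2 * c)
    have i4 : Integrable (fun t => f t * f t - 2 * c * f t) (om (zz i)) := hint2.sub i3
    rw [integral_add i4 (integrable_const _), integral_sub hint2 i3, integral_const_mul,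
      integral_const]
    simp
  have h14 : Tendsto (fun i => (∫ t, (f t - c) * (f t - c) ∂(om (zz i))).re
      + 2 * ∫ t, |(f t).im| * |(f t).im| ∂(om (zz i))) 𝒰 (𝓝 0) := by
    have := ((Complex.continuous_re.tendsto 0).comp h11).add (h5.const_mul 2)
    simpa using this
  refine h14.congr' ?_
  filter_upwards [hzz] with i hi
  have := isProb_om hi
  have hb : ∀ᵐ t ∂(volume : Measure UnitAddCircle), ‖(f t - c) * (f t - c)‖
      ≤ (B + ‖c‖) * (B + ‖c‖) := by
    filter_upwards [hf.bdd] with t ht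
    have h15 := norm_sub_le (f t) c
    rw [norm_mul]
    have h16 : ‖f t - c‖ ≤ B + ‖c‖ := by linarith
    exact mul_le_mul h16 h16 (norm_nonneg _) ((norm_nonneg _).trans h16)
  have hmc : AEStronglyMeasurable (fun t => f t - c) (volume : Measure UnitAddCircle) :=
    hf.meas.aestronglyMeasurable.sub aestronglyMeasurable_const
  have hint : Integrable (fun t => (f t - c) * (f t - c)) (om (zz i)) :=
    integrable_om hi (hmc.mul hmc) hb
  have hintim : Integrable (fun t => |(f t).im| * |(f t).im|) (om (zz i)) := by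
    refine Integrable.of_bound (hmim.mul hmim).aestronglyMeasurable (B * B) ?_
    filter_upwards [om_ae hf.bdd] with t ht
    have h7 := (Complex.abs_im_le_norm (f t)).trans ht
    rw [Real.norm_of_nonneg (by positivity)]
    exact mul_le_mul h7 h7 (abs_nonneg _) ((abs_nonneg _).trans h7)
  have h17 : (∫ t, (f t - c) * (f t - c) ∂(om (zz i))).re
      = ∫ t, ((f t - c) * (f t - c)).re ∂(om (zz i)) := by
    have := integral_re hint (𝕜 := ℂ)
    exact this.symm
  have hre : Integrable (fun t => ((f t - c) * (f t - c)).re) (om (zz i)) := hint.re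
  rw [h17, ← integral_const_mul, ← integral_add hre (hintim.const_mul 2)]
  refine integral_congr_ae (Eventually.of_forall fun t => ?_)
  simp only
  rw [norm_sq_eq]
  have h18 : (f t - c).im = (f t).im := by rw [Complex.sub_im, hcim, sub_zero]
  rw [h18]

lemma om_le_variance {z : ℂ} (hz : ‖z‖ < 1) {f : UnitAddCircle → ℂ} {B : ℝ} (hf : GoodA f B)
    (c : ℂ) {ε : ℝ} (hε : 0 < ε) :
    om z {t | ε ≤ ‖f t - c‖} ≤ ENNReal.ofReal ((∫ t, ‖f t - c‖ ^ 2 ∂(om z)) / ε ^ 2) := by
  have := isProb_om hz
  have hint : Integrable (fun t => ‖f t - c‖ ^ 2) (om z) := by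
    refine Integrable.of_bound ?_ ((B + ‖c‖) ^ 2) ?_
    · exact ((hf.meas.sub stronglyMeasurable_const).norm.pow 2).aestronglyMeasurable
    · filter_upwards [om_ae hf.bdd] with t ht
      have h15 := norm_sub_le (f t) c
      have h16 : ‖f t - c‖ ≤ B + ‖c‖ := by linarith
      rw [Real.norm_of_nonneg (by positivity)]
      gcongr
  have h1 := mul_meas_ge_le_integral_of_nonneg (μ := om z) (f := fun t => ‖f t - c‖ ^ 2)
    (Eventually.of_forall fun t => by positivity) hint (ε ^ 2)
  have h2 : {t | ε ≤ ‖f t - c‖} = {x | ε ^ 2 ≤ ‖f x - c‖ ^ 2} := by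
    ext t
    simp only [Set.mem_ofPred_eq]
    rw [sq_le_sq₀ hε.le (norm_nonneg _)]
  rw [h2]
  have h3 : (om z {x | ε ^ 2 ≤ ‖f x - c‖ ^ 2}).toReal
      ≤ (∫ t, ‖f t - c‖ ^ 2 ∂(om z)) / ε ^ 2 := by
    rw [le_div_iff₀ (by positivity), mul_comm]
    exact h1
  rw [← ENNReal.ofReal_toReal (measure_ne_top (om z) _)]
  exact ENNReal.ofReal_le_ofReal h3

lemma norm_integral_sub_le {z : ℂ} (hz : ‖z‖ < 1) {f : UnitAddCircle → ℂ} {B : ℝ}
    (hf : GoodA f B) (c : ℂ) {ε : ℝ} (hε : 0 < ε) :
    ‖(∫ t, f t ∂(om z)) - c‖ ≤ ε + (∫ t, ‖f t - c‖ ^ 2 ∂(om z)) / ε := by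
  have := isProb_om hz
  have hint : Integrable (fun t => ‖f t - c‖ ^ 2) (om z) := by
    refine Integrable.of_bound ?_ ((B + ‖c‖) ^ 2) ?_
    · exact ((hf.meas.sub stronglyMeasurable_const).norm.pow 2).aestronglyMeasurable
    · filter_upwards [om_ae hf.bdd] with t ht
      have h15 := norm_sub_le (f t) c
      have h16 : ‖f t - c‖ ≤ B + ‖c‖ := by linarith
      rw [Real.norm_of_nonneg (by positivity)]
      gcongr
  have hf0 : Integrable f (om z) := integrable_om hz hf.meas.aestronglyMeasurable hf.bdd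
  have h1 : (∫ t, f t ∂(om z)) - c = ∫ t, (f t - c) ∂(om z) := by
    rw [integral_sub hf0 (integrable_const _), integral_const]
    simp
  rw [h1]
  have h2 : ‖∫ t, (f t - c) ∂(om z)‖ ≤ ∫ t, (ε + ‖f t - c‖ ^ 2 / ε) ∂(om z) := by
    refine norm_integral_le_of_norm_le ((integrable_const ε).add (hint.div_const ε)) ?_
    refine Eventually.of_forall fun t => ?_
    have h3 := norm_nonneg (f t - c)
    rw [← sub_nonneg]
    have h4 : ε + ‖f t - c‖ ^ 2 / ε - ‖f t - c‖
        = (ε ^ 2 + ‖f t - c‖ ^ 2 - ‖f t - c‖ * ε) / ε := by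
      field_simp
    rw [h4]
    refine div_nonneg ?_ hε.le
    nlinarith [sq_nonneg (ε - ‖f t - c‖)]
  refine h2.trans (le_of_eq ?_)
  rw [integral_add (integrable_const ε) (hint.div_const ε), integral_const, integral_div]
  simp

end Pool.Agent.Helper40_Hinf
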